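import Pool.Agent.H491W.Invariant

/-!
# The separating curve: circles around the two punctures `0` and `1/2`
-/

open Complex Topology Set Filter ComplexConjugate

namespace Pool.Agent.H491W

/-- the circle with centre `1/4` and radius `r` -/
noncomputable def circ (r : ℝ) : ℝ → ℂ := fun t => 1 / 4 + r * exp (2 * Real.pi * I * t)

theorem exp_two_pi (t : ℝ) : exp (2 * Real.pi * I * (t + 1 : ℝ)) = exp (2 * Real.pi * I * t) := by
  push_cast
  rw [mul_add, mul_one, exp_add, exp_two_pi_mul_I, mul_one]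

theorem circ_add_one (r t : ℝ) : circ r (t + 1) = circ r t := by
  simp only [circ, exp_two_pi]

theorem norm_exp_two_pi (t : ℝ) : ‖exp (2 * Real.pi * I * t)‖ = 1 := by
  rw [show (2 * Real.pi * I * t : ℂ) = ((2 * Real.pi * t : ℝ) : ℂ) * I by push_cast; ring]
  exact norm_exp_ofReal_mul_I _

theorem circ_norm {r : ℝ} (hr : 0 ≤ r) (t : ℝ) : ‖circ r t - 1 / 4‖ = r := by
  simp only [circ, add_sub_cancel_left, norm_mul, norm_exp_two_pi, norm_real, Real.norm_eq_abs,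
    abs_of_nonneg hr, mul_one]

theorem int_ne {r : ℝ} (hr : r ∈ Ioo (1 / 4 : ℝ) (1 / 2)) (m n : ℤ) :
    ((m : ℝ) - 1 / 4) ^ 2 + (n : ℝ) ^ 2 ≠ r ^ 2 := by
  intro h
  have h1 : r ^ 2 < 1 / 4 := by nlinarith [hr.1, hr.2]
  have h2 : 1 / 16 < r ^ 2 := by nlinarith [hr.1, hr.2]
  have hn : n = 0 := by
    have h3 : (n : ℝ) ^ 2 < 1 := by nlinarith [sq_nonneg ((m : ℝ) - 1 / 4)]
    have h4 : n ^ 2 < 1 := by exact_mod_cast h3
    nlinarith [sq_nonneg n, mul_self_nonneg n]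
  subst hn
  rcases lt_trichotomy m 0 with h3 | h3 | h3
  · have : (m : ℝ) ≤ -1 := by exact_mod_cast (by omega : m ≤ -1)
    push_cast at h
    nlinarith
  · subst h3
    push_cast at h
    linarith
  · have : (1 : ℝ) ≤ m := by exact_mod_cast (by omega : 1 ≤ m)
    push_cast at h
    nlinarith

theorem circ_mem {r : ℝ} (hr : r ∈ Ioo (1 / 4 : ℝ) (1 / 2)) (t : ℝ) : circ r t ∈ S := by
  have hr0 : 0 ≤ r := by linarith [hr.1]
  have h := circ_norm hr0 t
  refine ⟨fun hm => ?_, fun hm => ?_⟩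
  · obtain ⟨m, n, hmn⟩ := mem_Lat.1 hm
    rw [hmn] at h
    apply int_ne hr m n
    rw [← h, ← normSq_eq_norm_sq, normSq_apply]
    simp
    ring
  · obtain ⟨m, n, hmn⟩ := mem_Lat.1 hm
    have h1 : circ r t = m + n * I + 1 / 2 := by rw [← hmn]; ring
    rw [h1] at h
    apply int_ne hr (-m) n
    rw [← h, ← normSq_eq_norm_sq, normSq_apply]
    simp
    ring

theorem circ_diff (r : ℝ) : ContDiff ℝ 1 (circ r) := by
  unfold circ
  have h1 : ContDiff ℝ 1 (fun t : ℝ => (2 * Real.pi * I * t : ℂ)) :=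
    contDiff_const.mul ofRealCLM.contDiff
  exact contDiff_const.add (contDiff_const.mul h1.cexp)

theorem circ_deriv (r t : ℝ) :
    HasDerivAt (circ r) (r * (exp (2 * Real.pi * I * t) * (2 * Real.pi * I))) t := by
  have h1 : HasDerivAt (fun t : ℝ => (2 * Real.pi * I * t : ℂ)) (2 * Real.pi * I) t := by
    simpa using (ofRealCLM.hasDerivAt (x := t)).const_mul (2 * Real.pi * I : ℂ)
  exact (h1.cexp.const_mul (r : ℂ)).const_add (1 / 4 : ℂ)

theorem circ_sub {r r' : ℝ} (hr : r ∈ Ioo (1 / 4 : ℝ) (1 / 2)) (hr' : r' ∈ Ioo (1 / 4 : ℝ) (1 / 2))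
    {s t : ℝ} (h : circ r s - circ r' t ∈ Lat) : circ r s = circ r' t := by
  refine sub_eq_zero.1 (eq_zero_of_norm_lt h ?_)
  have h1 := circ_norm (r := r) (by linarith [hr.1]) s
  have h2 := circ_norm (r := r') (by linarith [hr'.1]) t
  have : circ r s - circ r' t = (circ r s - 1 / 4) - (circ r' t - 1 / 4) := by ring
  rw [this]
  refine (norm_sub_le _ _).trans_lt ?_
  rw [h1, h2]
  linarith [hr.2, hr'.2]

theorem circ_simple {r : ℝ} (hr : r ∈ Ioo (1 / 4 : ℝ) (1 / 2)) (s t : ℝ)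
    (h : circ r s - circ r t ∈ Lat) : ∃ n : ℤ, s - t = n := by
  have h1 := circ_sub hr hr h
  have hr0 : (r : ℂ) ≠ 0 := by
    have : r ≠ 0 := by linarith [hr.1]
    exact_mod_cast this
  simp only [circ, add_right_inj] at h1
  obtain ⟨n, hn⟩ := exp_eq_exp_iff_exists_int.1 (mul_left_cancel₀ hr0 h1)
  refine ⟨n, ?_⟩
  have h2 : (2 * Real.pi * I : ℂ) * (s - t - n) = 0 := by linear_combination hn
  rcases mul_eq_zero.1 h2 with h3 | h3
  · exact absurd h3 two_pi_I_ne_zero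
  · have h4 : ((s - t - n : ℝ) : ℂ) = 0 := by push_cast; exact h3
    have h5 : s - t - n = 0 := by exact_mod_cast h4
    linarith

theorem wind_exp : Wind (fun t : ℝ => exp (2 * Real.pi * I * t)) 1 := by
  refine ⟨fun t => 2 * Real.pi * I * t, by fun_prop, fun t => rfl, fun t => ?_⟩
  push_cast
  ring

theorem circ_wind {r : ℝ} (hr : r ∈ Ioo (1 / 4 : ℝ) (1 / 2)) {x : ℂ} (hx : ‖x‖ = 1 / 4) :
    Wind (fun t => circ r t - (1 / 4 - x)) 1 := by
  have hr0 : 0 < r := by linarith [hr.1]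
  have h1 : Wind (fun t : ℝ => (r : ℂ) + x * exp (-(2 * Real.pi * I * t))) 0 := by
    refine Wind.of_slit (ζ := 1) (by fun_prop) (fun t => ?_) fun t => ?_
    · rw [exp_neg, exp_neg, exp_two_pi]
    · rw [one_mul, mem_slitPlane_iff]
      left
      have h2 : ‖x * exp (-(2 * Real.pi * I * t))‖ = 1 / 4 := by
        rw [norm_mul, exp_neg, norm_inv, norm_exp_two_pi, hx]; norm_num
      have h3 := (abs_le.1 (abs_re_le_norm (x * exp (-(2 * Real.pi * I * t))))).1
      rw [add_re, ofReal_re]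
      linarith [hr.1]
  have h2 := wind_exp.mul h1
  rw [add_zero] at h2
  refine h2.congr fun t => ?_
  have h3 : exp (2 * Real.pi * I * t) ≠ 0 := exp_ne_zero _
  simp only [circ, exp_neg]
  field_simp
  ring

theorem circ_Pinv {r : ℝ} (hr : r ∈ Ioo (1 / 4 : ℝ) (1 / 2)) : Pinv (circ r) := by
  refine ⟨circ_add_one r, 0, Lat.zero_mem, ⟨1, one_ne_zero, ?_⟩, 1, one_ne_zero, ?_⟩
  · exact (circ_wind hr (x := 1 / 4) (by norm_num)).congr fun t => by ring
  · exact (circ_wind hr (x := -(1 / 4)) (by rw [norm_neg]; norm_num)).congr fun t => by ring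

/-- the circle as an essential simple closed curve on `S` -/
noncomputable def circC (r : ℝ) (hr : r ∈ Ioo (1 / 4 : ℝ) (1 / 2)) : Curve where
  f := circ r
  contDiff := circ_diff r
  regular t := by
    rw [(circ_deriv r t).deriv]
    have : (r : ℂ) ≠ 0 := by
      have : r ≠ 0 := by linarith [hr.1]
      exact_mod_cast this
    exact mul_ne_zero this (mul_ne_zero (exp_ne_zero _) two_pi_I_ne_zero)
  closed := ⟨0, Lat.zero_mem, fun t => by rw [circ_add_one, add_zero]⟩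
  mem := circ_mem hr
  simple := circ_simple hr
  essential := (circ_Pinv hr).essential

theorem circ_homotopic {r r' : ℝ} (hr : r ∈ Ioo (1 / 4 : ℝ) (1 / 2))
    (hr' : r' ∈ Ioo (1 / 4 : ℝ) (1 / 2)) : FreelyHomotopic (circ r) (circ r') := by
  set w : ℝ → ℝ := fun u => max 0 (min 1 u) with hw
  have hwm : ∀ u, w u ∈ Icc (0 : ℝ) 1 := fun u =>
    ⟨le_max_left _ _, max_le zero_le_one (min_le_left _ _)⟩
  have hρ : ∀ u, (1 - w u) * r + w u * r' ∈ Ioo (1 / 4 : ℝ) (1 / 2) := by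
    intro u
    obtain ⟨h1, h2⟩ := hwm u
    have := (convex_Ioo (1 / 4 : ℝ) (1 / 2)) hr hr' (sub_nonneg.2 h2) h1 (by ring)
    simpa using this
  refine ⟨fun u t => circ ((1 - w u) * r + w u * r') t, ?_, ⟨0, Lat.zero_mem, fun u t => ?_⟩,
    fun u t => circ_mem (hρ u) t, fun t => ?_, 0, Lat.zero_mem, fun t => ?_⟩
  · simp only [circ, hw]
    fun_prop
  · simp only [circ_add_one, add_zero]
  · simp [hw]
  · simp [hw]

/-- the class of the circle -/
noncomputable def c₀ : Cls := Quot.mk _ (circC (3 / 8) (by constructor <;> norm_num))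

theorem c₀_eq {r : ℝ} (hr : r ∈ Ioo (1 / 4 : ℝ) (1 / 2)) : Quot.mk _ (circC r hr) = c₀ :=
  Quot.sound (Or.inl (circ_homotopic hr (by constructor <;> norm_num)))

theorem Pcls_c₀ : Pcls c₀ := circ_Pinv (by constructor <;> norm_num)

theorem Pinv_of_mk {a : Curve} (h : Quot.mk _ a = c₀) : Pinv a.f := by
  have : Pcls (Quot.mk _ a) := by rw [h]; exact Pcls_c₀
  exact this

theorem ι_c₀_c₀ : ι c₀ c₀ = 0 := by
  have h1 : (3 / 8 : ℝ) ∈ Ioo (1 / 4 : ℝ) (1 / 2) := by constructor <;> norm_num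
  have h2 : (7 / 16 : ℝ) ∈ Ioo (1 / 4 : ℝ) (1 / 2) := by constructor <;> norm_num
  have hne : ∀ s t, circ (3 / 8) s - circ (7 / 16) t ∉ Lat := by
    intro s t h
    have h3 := circ_sub h1 h2 h
    have h4 := circ_norm (r := 3 / 8) (by norm_num) s
    have h5 := circ_norm (r := 7 / 16) (by norm_num) t
    rw [h3] at h4
    rw [h4] at h5
    norm_num at h5
  refine le_antisymm (sInf_le ⟨circC _ h1, circC _ h2, c₀_eq h1, c₀_eq h2, ?_, ?_⟩) zero_le
  · intro s t h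
    exact absurd h (hne s t)
  · rw [inter, Set.encard_eq_zero, Set.eq_empty_iff_forall_notMem]
    rintro s ⟨-, t, h⟩
    exact hne s t h

/-- the separating class meets no class exactly once -/
theorem ι_eq_zero {γ : Cls} (h : ι γ c₀ ≤ 1) : ι γ c₀ = 0 := by
  set A := {n | ∃ a b : Curve, Quot.mk _ a = γ ∧ Quot.mk _ b = c₀ ∧ Transverse a b ∧
    inter a b = n} with hA
  have hι : ι γ c₀ = sInf A := rfl
  have hne : A.Nonempty := by
    by_contra hcon
    rw [Set.not_nonempty_iff_eq_empty] at hcon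
    rw [hι, hcon, sInf_empty] at h
    exact absurd h (by simp)
  obtain ⟨a, b, ha, hb, hT, hi⟩ := csInf_mem hne
  rw [← hι] at hi
  have hp := parity a b hT (Pinv_of_mk hb).1
  rw [hi] at hp
  exact Order.lt_one_iff.1 (lt_of_le_of_ne h hp)

theorem exists_maximal : ∃ Γ : Set Cls, c₀ ∈ Γ ∧ IsOneSystem Γ ∧
    ∀ Γ', IsOneSystem Γ' → Γ ⊆ Γ' → Γ' = Γ := by
  have h0 : IsOneSystem {c₀} := by
    rintro γ rfl δ rfl
    rw [ι_c₀_c₀]
    exact zero_le
  obtain ⟨Γ, h1, h2⟩ := zorn_subset_nonempty {Γ | IsOneSystem Γ} (fun C hC hchain hne => by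
    refine ⟨⋃₀ C, ?_, fun s hs => subset_sUnion_of_mem hs⟩
    rintro γ ⟨Γ₁, hΓ₁, hγ⟩ δ ⟨Γ₂, hΓ₂, hδ⟩
    rcases hchain.total hΓ₁ hΓ₂ with h | h
    · exact hC hΓ₂ γ (h hγ) δ hδ
    · exact hC hΓ₁ γ hγ δ (h hδ)) {c₀} h0
  exact ⟨Γ, h1 rfl, h2.prop, fun Γ' h3 h4 => (h2.eq_of_subset h3 h4).symm⟩

end Pool.Agent.H491W
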