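import Pool.Agent.H491W.Wind

/-!
# The winding number jumps at a transverse crossing
-/

open Complex Topology Set Filter ComplexConjugate

namespace Pool.Agent.H491W

theorem est {f : ℝ → ℂ} {F : ℂ} {x : ℝ} (h : HasDerivAt f F x) {κ : ℝ} (hκ : 0 < κ) :
    ∃ η > 0, ∀ τ : ℝ, |τ| ≤ η → ‖f (x + τ) - f x - τ * F‖ ≤ κ * |τ| := by
  have h1 := (hasDerivAt_iff_isLittleO.1 h).def hκ
  rw [Metric.eventually_nhds_iff] at h1
  obtain ⟨ε, hε, h2⟩ := h1
  refine ⟨ε / 2, by positivity, fun τ hτ => ?_⟩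
  have h3 := h2 (y := x + τ) (by rw [Real.dist_eq]; simp; linarith)
  simpa using h3

theorem crossing_pos {a b : ℝ → ℂ} {s₀ t₀ : ℝ} {A B : ℂ} (ha : HasDerivAt a A s₀)
    (hb : HasDerivAt b B t₀) (hbc : Continuous b) (hper : ∀ t, b (t + 1) = b t)
    (hab : a s₀ = b t₀) (hsimple : ∀ t, b t = b t₀ → ∃ n : ℤ, t - t₀ = n)
    (hD : 0 < (conj A * B).im) :
    ∃ δ₁ > 0, ∀ δ : ℝ, 0 < δ → δ < δ₁ → ∀ n m : ℤ, (∀ t, b t ≠ a (s₀ - δ)) →
      Wind (fun t => b t - a (s₀ + δ)) n → Wind (fun t => b t - a (s₀ - δ)) m → n ≠ m := by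
  have hA : 0 < ‖A‖ := norm_pos_iff.2 (by rintro rfl; simp at hD)
  have hB : 0 < ‖B‖ := norm_pos_iff.2 (by rintro rfl; simp at hD)
  set D := (conj A * B).im with hDdef
  obtain ⟨c, hc0, hc⟩ : ∃ c : ℝ, 0 < c ∧ c * ‖B‖ ≤ ‖A‖ / 8 :=
    ⟨‖A‖ / 8 / ‖B‖, by positivity, by rw [div_mul_cancel₀ _ hB.ne']⟩
  obtain ⟨κ, hκ0, hκ1, hκ2, hκ3⟩ : ∃ κ : ℝ, 0 < κ ∧ κ ≤ 1 ∧ κ * (c + 1) ≤ ‖A‖ / 8 ∧
      κ * ((1 + 1 / c) * (2 * ‖A‖ + ‖B‖ + 1)) < D := by
    set M := (1 + 1 / c) * (2 * ‖A‖ + ‖B‖ + 1) with hM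
    have hMpos : 0 < M := by positivity
    refine ⟨min 1 (min (‖A‖ / 8 / (c + 1)) (D / 2 / M)), by positivity, min_le_left _ _, ?_, ?_⟩
    · calc min 1 (min (‖A‖ / 8 / (c + 1)) (D / 2 / M)) * (c + 1)
          ≤ (‖A‖ / 8 / (c + 1)) * (c + 1) := by
            gcongr
            exact (min_le_right _ _).trans (min_le_left _ _)
        _ = ‖A‖ / 8 := by field_simp
    · calc min 1 (min (‖A‖ / 8 / (c + 1)) (D / 2 / M)) * M
          ≤ (D / 2 / M) * M := by
            gcongr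
            exact (min_le_right _ _).trans (min_le_right _ _)
        _ = D / 2 := by field_simp
        _ < D := by linarith
  obtain ⟨η₁, hη₁, ha1⟩ := est ha hκ0
  obtain ⟨η₂, hη₂, hb1⟩ := est hb hκ0
  set η := min η₂ (1 / 4) with hη
  have hη0 : 0 < η := by positivity
  have hηq : η ≤ 1 / 4 := min_le_right _ _
  have hb2 : ∀ τ : ℝ, |τ| ≤ η → ‖b (t₀ + τ) - b t₀ - τ * B‖ ≤ κ * |τ| := fun τ h =>
    hb1 τ (h.trans (min_le_left _ _))
  obtain ⟨ρ, hρ0, hρ⟩ : ∃ ρ > 0, ∀ t ∈ Icc (t₀ + η) (t₀ + 1 - η), ρ ≤ ‖b t - b t₀‖ := by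
    obtain ⟨t₁, ht₁, hmin⟩ := (isCompact_Icc (a := t₀ + η) (b := t₀ + 1 - η)).exists_isMinOn
      ⟨t₀ + η, by constructor <;> linarith⟩ (f := fun t => ‖b t - b t₀‖) (by fun_prop)
    refine ⟨‖b t₁ - b t₀‖, norm_pos_iff.2 (sub_ne_zero.2 fun h => ?_), fun t ht => hmin ht⟩
    obtain ⟨n, hn⟩ := hsimple _ h
    have h1 : (0 : ℝ) < n := by rw [← hn]; linarith [ht₁.1]
    have h2 : (n : ℝ) < 1 := by rw [← hn]; linarith [ht₁.2]
    have h3 : (0 : ℤ) < n := by exact_mod_cast h1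
    have h4 : n < (1 : ℤ) := by exact_mod_cast h2
    omega
  obtain ⟨δ₁, hδ₁, h1, h2, h3⟩ : ∃ δ₁ > 0, δ₁ ≤ η₁ ∧ c * δ₁ ≤ η ∧
      δ₁ * (‖A‖ + 1) ≤ ρ / 4 :=
    ⟨min η₁ (min (η / c) (ρ / 4 / (‖A‖ + 1))), by positivity, min_le_left _ _, by
      calc c * min η₁ (min (η / c) (ρ / 4 / (‖A‖ + 1))) ≤ c * (η / c) := by
            gcongr
            exact (min_le_right _ _).trans (min_le_left _ _)
        _ = η := by field_simp, by
      calc min η₁ (min (η / c) (ρ / 4 / (‖A‖ + 1))) * (‖A‖ + 1)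
          ≤ (ρ / 4 / (‖A‖ + 1)) * (‖A‖ + 1) := by
            gcongr
            exact (min_le_right _ _).trans (min_le_right _ _)
        _ = ρ / 4 := by field_simp⟩
  refine ⟨δ₁, hδ₁, fun δ hδ0 hδ n m hne hn hm => ?_⟩
  have hcδ : c * δ ≤ η := le_trans (by gcongr) h2
  have hcδ0 : 0 < c * δ := by positivity
  set xp := a (s₀ + δ) with hxp
  set xm := a (s₀ - δ) with hxm
  set ep := xp - b t₀ - δ * A with hep
  set em := xm - b t₀ + δ * A with hem
  have hepn : ‖ep‖ ≤ κ * δ := by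
    have := ha1 δ (by rw [abs_of_pos hδ0]; linarith)
    rwa [hab, abs_of_pos hδ0] at this
  have hemn : ‖em‖ ≤ κ * δ := by
    have := ha1 (-δ) (by rw [abs_neg, abs_of_pos hδ0]; linarith)
    rw [hab, abs_neg, abs_of_pos hδ0, ← sub_eq_add_neg] at this
    convert this using 2
    rw [hem, hxm]; push_cast; ring
  have hzne : ∀ t, b t - xm ≠ 0 := fun t => sub_ne_zero.2 (hne t)
  set g : ℝ → ℂ := fun t => (b t - xp) / (b t - xm) with hg
  have hgc : Continuous g := (hbc.sub continuous_const).div (hbc.sub continuous_const) hzne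
  have hgp : ∀ t, g (t + 1) = g t := fun t => by simp only [hg, hper]
  have hgW : Wind g (n - m) := hn.div hm
  -- real and imaginary part of `g`
  have him : ∀ t, (g t).im * normSq (b t - xm) = (conj (xp - xm) * (b t - xm)).im := by
    intro t
    have e : g t = 1 - (xp - xm) * (b t - xm)⁻¹ := by
      simp only [hg]
      field_simp [hzne t]
      ring
    have hns : normSq (b t - xm) ≠ 0 := by rw [Ne, normSq_eq_zero]; exact hzne t
    rw [e, inv_def]
    simp only [sub_im, one_im, mul_im, mul_re, sub_re, conj_re, conj_im, ofReal_re, ofReal_im]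
    field_simp
    ring
  have hre : ∀ t, (g t).re * normSq (b t - xm) = ((b t - xp) * conj (b t - xm)).re := by
    intro t
    have hns : normSq (b t - xm) ≠ 0 := by rw [Ne, normSq_eq_zero]; exact hzne t
    simp only [hg]
    rw [div_eq_mul_inv, inv_def]
    simp only [mul_im, mul_re, sub_re, sub_im, conj_re, conj_im, ofReal_re, ofReal_im]
    field_simp
    ring
  have hnspos : ∀ t, 0 < normSq (b t - xm) := fun t => normSq_pos.2 (hzne t)
  -- sign of the imaginary part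
  have hsign : ∀ τ : ℝ, |τ| ≤ η → c * δ ≤ |τ| →
      |(conj (xp - xm) * (b (t₀ + τ) - xm)).im - 2 * δ * τ * D| < 2 * δ * |τ| * D := by
    intro τ h4 h5
    set e2 := b (t₀ + τ) - b t₀ - τ * B with he2
    have he2n : ‖e2‖ ≤ κ * |τ| := hb2 τ h4
    have hτpos : 0 < |τ| := lt_of_lt_of_le hcδ0 h5
    have hδτ : δ ≤ |τ| * (1 / c) := by
      rw [mul_one_div, le_div_iff₀ hc0]; linarith
    have e : conj (xp - xm) * (b (t₀ + τ) - xm) = (2 * δ * τ) * (conj A * B) +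
        (2 * δ * δ * normSq A) +
        ((2 * δ * conj A) * (e2 - em) + conj (ep - em) * (b (t₀ + τ) - xm)) := by
      have e1 : xp - xm = 2 * δ * A + (ep - em) := by rw [hep, hem]; ring
      have e3 : b (t₀ + τ) - xm = τ * B + δ * A + (e2 - em) := by rw [he2, hem]; ring
      rw [normSq_eq_conj_mul_self]
      conv_lhs => rw [e1]
      rw [map_add, map_mul, map_mul, conj_ofReal]
      have : conj (2 : ℂ) = 2 := by norm_num [Complex.ext_iff]
      rw [this, add_mul]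
      conv_lhs => rw [e3]
      rw [e3]
      ring
    have him2 : (conj (xp - xm) * (b (t₀ + τ) - xm)).im - 2 * δ * τ * D =
        ((2 * δ * conj A) * (e2 - em) + conj (ep - em) * (b (t₀ + τ) - xm)).im := by
      rw [e, add_im, add_im]
      have h6 : ((2 * δ * τ : ℂ) * (conj A * B)).im = 2 * δ * τ * D := by
        rw [show (2 * δ * τ : ℂ) = ((2 * δ * τ : ℝ) : ℂ) by push_cast; ring, im_ofReal_mul]
      have h7 : (2 * δ * δ * normSq A : ℂ).im = 0 := by
        rw [show (2 * δ * δ * normSq A : ℂ) = ((2 * δ * δ * normSq A : ℝ) : ℂ) by push_cast; ring]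
        exact ofReal_im _
      rw [h6, h7]; ring
    rw [him2]
    have hsum : |τ| + δ ≤ |τ| * (1 + 1 / c) := by rw [mul_add, mul_one]; linarith
    have hw : ‖b (t₀ + τ) - xm‖ ≤ (|τ| + δ) * (‖A‖ + ‖B‖ + 1) := by
      have e3 : b (t₀ + τ) - xm = τ * B + δ * A + (e2 - em) := by rw [he2, hem]; ring
      rw [e3]
      calc ‖(τ : ℂ) * B + δ * A + (e2 - em)‖ ≤ ‖(τ : ℂ) * B‖ + ‖(δ : ℂ) * A‖ + (‖e2‖ + ‖em‖) :=
            (norm_add_le _ _).trans (add_le_add (norm_add_le _ _) (norm_sub_le _ _))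
        _ ≤ |τ| * ‖B‖ + δ * ‖A‖ + (κ * |τ| + κ * δ) := by
            rw [norm_mul, norm_mul, norm_real, norm_real, Real.norm_eq_abs, Real.norm_eq_abs,
              abs_of_pos hδ0]
            gcongr
        _ ≤ (|τ| + δ) * (‖A‖ + ‖B‖ + 1) := by
            nlinarith [mul_nonneg hτpos.le hA.le, mul_nonneg hδ0.le hB.le,
              mul_nonneg (sub_nonneg.2 hκ1) hτpos.le, mul_nonneg (sub_nonneg.2 hκ1) hδ0.le]
    calc |((2 * δ * conj A) * (e2 - em) + conj (ep - em) * (b (t₀ + τ) - xm)).im|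
        ≤ ‖(2 * δ * conj A) * (e2 - em) + conj (ep - em) * (b (t₀ + τ) - xm)‖ := abs_im_le_norm _
      _ ≤ 2 * δ * ‖A‖ * (κ * |τ| + κ * δ) + (κ * δ + κ * δ) * ((|τ| + δ) * (‖A‖ + ‖B‖ + 1)) := by
          refine (norm_add_le _ _).trans (add_le_add ?_ ?_)
          · rw [norm_mul, norm_mul, norm_mul, RCLike.norm_conj, norm_real, Real.norm_eq_abs,
              abs_of_pos hδ0, norm_ofNat]
            gcongr
            exact (norm_sub_le _ _).trans (add_le_add he2n hemn)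
          · rw [norm_mul, RCLike.norm_conj]
            gcongr
            exact (norm_sub_le _ _).trans (add_le_add hepn hemn)
      _ = 2 * δ * ((|τ| + δ) * (κ * (2 * ‖A‖ + ‖B‖ + 1))) := by ring
      _ ≤ 2 * δ * ((|τ| * (1 + 1 / c)) * (κ * (2 * ‖A‖ + ‖B‖ + 1))) := by gcongr
      _ = 2 * δ * |τ| * (κ * ((1 + 1 / c) * (2 * ‖A‖ + ‖B‖ + 1))) := by ring
      _ < 2 * δ * |τ| * D := by gcongr
  have hpos : ∀ τ : ℝ, c * δ ≤ τ → τ ≤ η → 0 < (g (t₀ + τ)).im := by
    intro τ h4 h5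
    have hτ : 0 < τ := hcδ0.trans_le h4
    have h6 := hsign τ (by rw [abs_of_pos hτ]; exact h5) (by rw [abs_of_pos hτ]; exact h4)
    rw [abs_of_pos hτ, abs_lt] at h6
    have h7 : 0 < (g (t₀ + τ)).im * normSq (b (t₀ + τ) - xm) := by rw [him]; linarith [h6.1]
    exact (pos_iff_pos_of_mul_pos h7).2 (hnspos _)
  have hneg : ∀ τ : ℝ, c * δ ≤ τ → τ ≤ η → (g (t₀ + -τ)).im < 0 := by
    intro τ h4 h5
    have hτ : 0 < τ := hcδ0.trans_le h4
    have h6 := hsign (-τ) (by rw [abs_neg, abs_of_pos hτ]; exact h5)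
      (by rw [abs_neg, abs_of_pos hτ]; exact h4)
    rw [abs_neg, abs_of_pos hτ, abs_lt] at h6
    have h7 : (g (t₀ + -τ)).im * normSq (b (t₀ + -τ) - xm) < 0 := by rw [him]; linarith [h6.2]
    by_contra hcon
    push Not at hcon
    exact absurd h7 (not_lt.2 (mul_nonneg hcon (hnspos _).le))
  have hmid : ∀ τ : ℝ, |τ| ≤ c * δ → (g (t₀ + τ)).re < 0 := by
    intro τ h4
    set e2 := b (t₀ + τ) - b t₀ - τ * B with he2
    have he2n : ‖e2‖ ≤ κ * |τ| := hb2 τ (h4.trans hcδ)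
    set z1 := τ * B + (e2 - ep) with hz1
    set z2 := τ * B + (e2 - em) with hz2
    have hbound : ∀ e : ℂ, ‖e‖ ≤ κ * δ → ‖(τ : ℂ) * B + (e2 - e)‖ ≤ δ * ‖A‖ / 4 := by
      intro e he
      calc ‖(τ : ℂ) * B + (e2 - e)‖ ≤ ‖(τ : ℂ) * B‖ + (‖e2‖ + ‖e‖) :=
            (norm_add_le _ _).trans (add_le_add le_rfl (norm_sub_le _ _))
        _ ≤ (c * δ) * ‖B‖ + (κ * (c * δ) + κ * δ) := by
            rw [norm_mul, norm_real, Real.norm_eq_abs]
            have : κ * |τ| ≤ κ * (c * δ) := by gcongr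
            gcongr
            exact he2n.trans this
        _ = δ * (c * ‖B‖ + κ * (c + 1)) := by ring
        _ ≤ δ * (‖A‖ / 8 + ‖A‖ / 8) := by gcongr
        _ = δ * ‖A‖ / 4 := by ring
    have e1 : b (t₀ + τ) - xp = -(δ * A) + z1 := by rw [hz1, he2, hep]; ring
    have e3 : b (t₀ + τ) - xm = δ * A + z2 := by rw [hz2, he2, hem]; ring
    have h6 : ((b (t₀ + τ) - xp) * conj (b (t₀ + τ) - xm)).re < 0 := by
      rw [e1, e3]
      have e4 : (-(δ * A) + z1) * conj (δ * A + z2) =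
          -((δ : ℂ) * A * conj (δ * A)) + (-(δ * A) * conj z2 + z1 * conj (δ * A) + z1 * conj z2) := by
        rw [map_add]; ring
      have e5 : ((δ : ℂ) * A * conj (δ * A)).re = (δ * ‖A‖) ^ 2 := by
        rw [mul_conj, ofReal_re, normSq_eq_norm_sq, norm_mul, norm_real, Real.norm_eq_abs,
          abs_of_pos hδ0]
      rw [e4, add_re, neg_re, e5]
      have hz1n : ‖z1‖ ≤ δ * ‖A‖ / 4 := hbound _ hepn
      have hz2n : ‖z2‖ ≤ δ * ‖A‖ / 4 := hbound _ hemn
      have h8 : ‖(-(δ * A) * conj z2 + z1 * conj (δ * A) + z1 * conj z2 : ℂ)‖ ≤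
          (δ * ‖A‖) * (δ * ‖A‖ / 4) + (δ * ‖A‖ / 4) * (δ * ‖A‖) +
            (δ * ‖A‖ / 4) * (δ * ‖A‖ / 4) := by
        refine (norm_add_le _ _).trans (add_le_add ((norm_add_le _ _).trans (add_le_add ?_ ?_)) ?_)
        · rw [norm_mul, norm_neg, RCLike.norm_conj, norm_mul, norm_real, Real.norm_eq_abs,
            abs_of_pos hδ0]
          gcongr
        · rw [norm_mul, RCLike.norm_conj, norm_mul, norm_real, Real.norm_eq_abs,
            abs_of_pos hδ0]
          gcongr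
        · rw [norm_mul, RCLike.norm_conj]
          gcongr
      have h9 := (re_le_norm (-(δ * A) * conj z2 + z1 * conj (δ * A) + z1 * conj z2 : ℂ)).trans h8
      have h10 : 0 < δ * ‖A‖ := by positivity
      nlinarith
    rw [← hre] at h6
    by_contra hcon
    push Not at hcon
    exact absurd h6 (not_lt.2 (mul_nonneg hcon (hnspos _).le))
  have hfar : ∀ t ∈ Icc (t₀ + η) (t₀ + 1 - η), 0 < (g t).re := by
    intro t ht
    have h4 := hρ t ht
    have hxpn : ‖xp - b t₀‖ ≤ ρ / 4 := by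
      have : xp - b t₀ = δ * A + ep := by rw [hep]; ring
      rw [this]
      calc ‖(δ : ℂ) * A + ep‖ ≤ δ * ‖A‖ + κ * δ := by
            refine (norm_add_le _ _).trans (add_le_add ?_ hepn)
            rw [norm_mul, norm_real, Real.norm_eq_abs, abs_of_pos hδ0]
        _ ≤ δ₁ * (‖A‖ + 1) := by nlinarith
        _ ≤ ρ / 4 := h3
    have hxmn : ‖xm - b t₀‖ ≤ ρ / 4 := by
      have : xm - b t₀ = -(δ * A) + em := by rw [hem]; ring
      rw [this]
      calc ‖-((δ : ℂ) * A) + em‖ ≤ δ * ‖A‖ + κ * δ := by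
            refine (norm_add_le _ _).trans (add_le_add ?_ hemn)
            rw [norm_neg, norm_mul, norm_real, Real.norm_eq_abs, abs_of_pos hδ0]
        _ ≤ δ₁ * (‖A‖ + 1) := by nlinarith
        _ ≤ ρ / 4 := h3
    have h5 : ‖xp - xm‖ ≤ ρ / 2 := by
      have : xp - xm = (xp - b t₀) - (xm - b t₀) := by ring
      rw [this]
      exact (norm_sub_le _ _).trans (by linarith)
    have h6 : 3 * ρ / 4 ≤ ‖b t - xm‖ := by
      have : b t - b t₀ = (b t - xm) + (xm - b t₀) := by ring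
      have h7 := norm_add_le (b t - xm) (xm - b t₀)
      rw [← this] at h7
      linarith
    have e : g t = 1 - (xp - xm) / (b t - xm) := by
      simp only [hg]
      field_simp [hzne t]
      ring
    have h8 : ‖(xp - xm) / (b t - xm)‖ < 1 := by
      rw [norm_div, div_lt_one (by linarith)]
      linarith
    rw [e, sub_re, one_re]
    linarith [re_le_norm ((xp - xm) / (b t - xm))]
  have hfin := Wind.ne_zero_of_jump (α := t₀ - c * δ) (β := t₀ + c * δ) hgc hgp (by linarith)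
    (by linarith) ?_ ?_ ?_ ?_ hgW
  · intro h; exact hfin (by rw [h]; ring)
  · intro t ht
    have := hmid (t - t₀) (by rw [abs_le]; constructor <;> linarith [ht.1, ht.2])
    rwa [add_sub_cancel] at this
  · intro t ht
    rcases le_total t (t₀ + η) with h4 | h4
    · have := hpos (t - t₀) (by linarith [ht.1]) (by linarith)
      rw [add_sub_cancel] at this
      exact mem_slitPlane_iff.2 (Or.inr this.ne')
    rcases le_total t (t₀ + 1 - η) with h5 | h5
    · exact mem_slitPlane_iff.2 (Or.inl (hfar t ⟨h4, h5⟩))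
    · have := hneg (t₀ + 1 - t) (by linarith [ht.2]) (by linarith)
      rw [show t₀ + -(t₀ + 1 - t) = t - 1 by ring, ← hgp, sub_add_cancel] at this
      exact mem_slitPlane_iff.2 (Or.inr this.ne)
  · have := hneg (c * δ) le_rfl hcδ
    rwa [← sub_eq_add_neg] at this
  · exact hpos (c * δ) le_rfl hcδ

theorem crossing {a b : ℝ → ℂ} {s₀ t₀ : ℝ} {A B : ℂ} (ha : HasDerivAt a A s₀)
    (hb : HasDerivAt b B t₀) (hbc : Continuous b) (hper : ∀ t, b (t + 1) = b t)
    (hab : a s₀ = b t₀) (hsimple : ∀ t, b t = b t₀ → ∃ n : ℤ, t - t₀ = n)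
    (hD : (conj A * B).im ≠ 0) :
    ∃ δ₁ > 0, ∀ δ : ℝ, 0 < δ → δ < δ₁ → ∀ n m : ℤ, (∀ t, b t ≠ a (s₀ - δ)) →
      (∀ t, b t ≠ a (s₀ + δ)) →
      Wind (fun t => b t - a (s₀ + δ)) n → Wind (fun t => b t - a (s₀ - δ)) m → n ≠ m := by
  rcases lt_or_gt_of_ne hD with h | h
  · have ha' : HasDerivAt (fun s => a (-s)) (-A) (-s₀) := by
      have h1 : HasDerivAt a A (-(-s₀)) := by rwa [neg_neg]
      have h2 := h1.scomp (-s₀) (hasDerivAt_neg (-s₀))
      rw [neg_smul, one_smul] at h2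
      exact h2
    obtain ⟨δ₁, hδ₁, h1⟩ := crossing_pos (a := fun s => a (-s)) ha' hb hbc hper (by simpa using hab)
      hsimple (by rw [map_neg, neg_mul, neg_im]; linarith)
    refine ⟨δ₁, hδ₁, fun δ h2 h3 n m h4 h5 hn hm => ?_⟩
    have e1 : -(-s₀ + δ) = s₀ - δ := by ring
    have e2 : -(-s₀ - δ) = s₀ + δ := by ring
    have := h1 δ h2 h3 m n (by simpa only [e2] using h5) (by simpa only [e1] using hm)
      (by simpa only [e2] using hn)
    exact this.symm
  · obtain ⟨δ₁, hδ₁, h1⟩ := crossing_pos ha hb hbc hper hab hsimple h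
    exact ⟨δ₁, hδ₁, fun δ h2 h3 n m h4 _ hn hm => h1 δ h2 h3 n m h4 hn hm⟩

end Pool.Agent.H491W
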