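import Pool.Agent.H491W.Crossing

/-!
# Curves on the twice punctured torus

The surface is `S = T ∖ {0, 1/2}`, `T = ℂ / (ℤ + ℤ i)`: genus one, two punctures.  A closed curve on
`T` is given by a lift `a : ℝ → ℂ` with `a (t + 1) = a t + v`, `v` in the lattice.
-/

open Complex Topology Set Filter ComplexConjugate

namespace Pool.Agent.H491W

/-- the lattice `ℤ + ℤ i` of Gaussian integers -/
def Lat : AddSubgroup ℂ where
  carrier := {z | ∃ m n : ℤ, z = m + n * I}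
  zero_mem' := ⟨0, 0, by simp⟩
  add_mem' := by
    rintro _ _ ⟨m, n, rfl⟩ ⟨m', n', rfl⟩
    exact ⟨m + m', n + n', by push_cast; ring⟩
  neg_mem' := by
    rintro _ ⟨m, n, rfl⟩
    exact ⟨-m, -n, by push_cast; ring⟩

/-- the points of the plane that lie over `S = ℂ / (ℤ + ℤ i) ∖ {0, 1/2}` -/
def S : Set ℂ := {z | z ∉ Lat ∧ z - 1 / 2 ∉ Lat}

/-- (lifts of) closed curves on `S` -/
def IsClosedCurve (a : ℝ → ℂ) : Prop :=
  Continuous a ∧ (∃ v ∈ Lat, ∀ t, a (t + 1) = a t + v) ∧ ∀ t, a t ∈ S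

/-- free homotopy of closed curves on `S`: the homotopy is lifted to the plane, and the lift of the
second curve is only determined up to a translation by the lattice -/
def FreelyHomotopic (a b : ℝ → ℂ) : Prop :=
  ∃ H : ℝ → ℝ → ℂ, Continuous (fun p : ℝ × ℝ => H p.1 p.2) ∧
    (∃ v ∈ Lat, ∀ u t, H u (t + 1) = H u t + v) ∧ (∀ u t, H u t ∈ S) ∧
    (∀ t, H 0 t = a t) ∧ ∃ k ∈ Lat, ∀ t, H 1 t = b t + k

/-- homotopic to a point of `S` -/
def NullHomotopic (a : ℝ → ℂ) : Prop := ∃ z ∈ S, FreelyHomotopic a fun _ => z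

/-- homotopic into each neighbourhood of one of the punctures `0` and `1/2` -/
def Peripheral (a : ℝ → ℂ) : Prop :=
  ∃ P : ℂ, (P = 0 ∨ P = 1 / 2) ∧ ∀ ε > 0, ∃ b : ℝ → ℂ, FreelyHomotopic a b ∧ ∀ t, ‖b t - P‖ < ε

/-- neither homotopic to a point nor into a puncture -/
def Essential (a : ℝ → ℂ) : Prop := ¬ NullHomotopic a ∧ ¬ Peripheral a

/-- (lifts of parametrised, regular, `C¹`) essential simple closed curves on `S` -/
structure Curve where
  f : ℝ → ℂ
  contDiff : ContDiff ℝ 1 f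
  regular : ∀ t, deriv f t ≠ 0
  closed : ∃ v ∈ Lat, ∀ t, f (t + 1) = f t + v
  mem : ∀ t, f t ∈ S
  simple : ∀ s t, f s - f t ∈ Lat → ∃ n : ℤ, s - t = n
  essential : Essential f

/-- homotopic as closed curves without orientation -/
def Homotopic (a b : Curve) : Prop :=
  FreelyHomotopic a.f b.f ∨ FreelyHomotopic a.f fun t => b.f (-t)

/-- homotopy classes of essential simple closed curves on `S` -/
def Cls : Type := Quot Homotopic

/-- the curves meet transversally -/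
def Transverse (a b : Curve) : Prop :=
  ∀ s t, a.f s - b.f t ∈ Lat → (conj (deriv a.f s) * deriv b.f t).im ≠ 0

/-- the number of common points of the curves `a` and `b` on `S` -/
noncomputable def inter (a b : Curve) : ℕ∞ :=
  {s : ℝ | s ∈ Ico (0 : ℝ) 1 ∧ ∃ t, a.f s - b.f t ∈ Lat}.encard

/-- the geometric intersection number of two classes -/
noncomputable def ι (γ δ : Cls) : ℕ∞ :=
  sInf {n | ∃ a b : Curve, Quot.mk _ a = γ ∧ Quot.mk _ b = δ ∧ Transverse a b ∧ inter a b = n}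

/-- a 1-system -/
def IsOneSystem (Γ : Set Cls) : Prop := ∀ γ ∈ Γ, ∀ δ ∈ Γ, ι γ δ ≤ 1

/-- `r` realises the classes in `Γ` by curves in pairwise minimal position -/
def IsMinimalPosition (Γ : Set Cls) (r : Cls → Curve) : Prop :=
  (∀ γ ∈ Γ, Quot.mk _ (r γ) = γ) ∧
    ∀ γ ∈ Γ, ∀ δ ∈ Γ, γ ≠ δ → Transverse (r γ) (r δ) ∧ inter (r γ) (r δ) = ι γ δ

/-- every point of `S` has a neighbourhood which meets only finitely many of the curves `r γ`,
`γ ∈ Γ` -/
def IsLocallyFinite (Γ : Set Cls) (r : Cls → Curve) : Prop :=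
  ∀ z ∈ S, ∃ U ∈ 𝓝 z, {γ | γ ∈ Γ ∧ ∃ w ∈ U, ∃ t, w - (r γ).f t ∈ Lat}.Finite

/-! ### the lattice -/

theorem mem_Lat {z : ℂ} : z ∈ Lat ↔ ∃ m n : ℤ, z = m + n * I := Iff.rfl

theorem eq_zero_of_norm_lt {z : ℂ} (hz : z ∈ Lat) (h : ‖z‖ < 1) : z = 0 := by
  obtain ⟨m, n, rfl⟩ := hz
  have h1 : ((m : ℝ) ^ 2 + (n : ℝ) ^ 2) < 1 := by
    have h2 : normSq ((m : ℂ) + n * I) = (m : ℝ) ^ 2 + (n : ℝ) ^ 2 := by
      simp [normSq_apply]; ring
    rw [← h2, normSq_eq_norm_sq]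
    exact pow_lt_one₀ (norm_nonneg _) h two_ne_zero
  have h2 : m ^ 2 + n ^ 2 < 1 := by exact_mod_cast h1
  have hm : m = 0 := by nlinarith [sq_nonneg m, sq_nonneg n, mul_self_nonneg m]
  have hn : n = 0 := by nlinarith [sq_nonneg m, sq_nonneg n, mul_self_nonneg m]
  simp [hm, hn]

theorem Lat_closed : IsClosed (Lat : Set ℂ) := by
  have h : (Lat : Set ℂ) = re ⁻¹' (range ((↑) : ℤ → ℝ)) ∩ im ⁻¹' (range ((↑) : ℤ → ℝ)) := by
    ext z
    rw [SetLike.mem_coe, mem_Lat]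
    constructor
    · rintro ⟨m, n, rfl⟩
      exact ⟨⟨m, by simp⟩, ⟨n, by simp⟩⟩
    · rintro ⟨⟨m, hm⟩, ⟨n, hn⟩⟩
      exact ⟨m, n, Complex.ext (by simp [← hm]) (by simp [← hn])⟩
  rw [h]
  exact (Int.isClosedEmbedding_coe_real.isClosed_range.preimage continuous_re).inter
    (Int.isClosedEmbedding_coe_real.isClosed_range.preimage continuous_im)

theorem S_open : IsOpen S := by
  have : S = (Lat : Set ℂ)ᶜ ∩ (fun z => z - 1 / 2) ⁻¹' (Lat : Set ℂ)ᶜ := by ext z; rfl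
  rw [this]
  exact Lat_closed.isOpen_compl.inter (Lat_closed.isOpen_compl.preimage (by fun_prop))

end Pool.Agent.H491W
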