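import Pool.Agent.H491W.Defs

/-!
# The winding number invariant and the parity of intersections
-/

open Complex Topology Set Filter ComplexConjugate

namespace Pool.Agent.H491W

theorem Wind.far {b : ℝ → ℂ} (hb : Continuous b) (hp : ∀ t, b (t + 1) = b t) {P q : ℂ} {ρ : ℝ}
    (h : ∀ t, ‖b t - P‖ < ρ) (hq : ρ ≤ ‖P - q‖) : Wind (fun t => b t - q) 0 := by
  have hne : P - q ≠ 0 := by
    rw [← norm_pos_iff]
    exact lt_of_lt_of_le ((norm_nonneg _).trans_lt (h 0)) hq
  refine Wind.of_slit (ζ := (P - q)⁻¹) (by fun_prop) (fun t => by rw [hp]) fun t => ?_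
  rw [mem_slitPlane_iff]
  left
  have e : (P - q)⁻¹ * (b t - q) = 1 + (b t - P) / (P - q) := by
    field_simp
    ring
  have h1 : ‖(b t - P) / (P - q)‖ < 1 := by
    rw [norm_div, div_lt_one (norm_pos_iff.2 hne)]
    exact (h t).trans_le hq
  have h2 := (abs_le.1 (abs_re_le_norm ((b t - P) / (P - q)))).1
  rw [e, add_re, one_re]
  linarith

theorem Wind.congr {f g : ℝ → ℂ} {n : ℤ} (h : Wind f n) (e : ∀ t, f t = g t) : Wind g n := by
  rwa [show g = f from funext fun t => (e t).symm]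

theorem add_int {a : ℝ → ℂ} {v : ℂ} (h : ∀ t, a (t + 1) = a t + v) (n : ℤ) (t : ℝ) :
    a (t + n) = a t + n * v := by
  induction n using Int.induction_on with
  | zero => simp
  | succ n ih =>
    push_cast at ih ⊢
    rw [← add_assoc, h, ih]; ring
  | pred n ih =>
    push_cast at ih ⊢
    have := h (t + (-n - 1))
    rw [show t + (-(n : ℝ) - 1) + 1 = t + -n by ring, ih] at this
    linear_combination -this

theorem exists_bound {b : ℝ → ℂ} (hb : Continuous b) (hp : ∀ t, b (t + 1) = b t) :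
    ∃ R > 0, ∀ t, ‖b t‖ < R := by
  obtain ⟨R, hR⟩ := (isCompact_Icc (a := (0 : ℝ)) (b := 1)).exists_bound_of_continuousOn
    hb.continuousOn
  refine ⟨|R| + 1, by positivity, fun t => ?_⟩
  obtain ⟨y, hy, hy'⟩ := (show Function.Periodic b 1 from hp).exists_mem_Ico₀ one_pos t
  rw [hy']
  linarith [hR y ⟨hy.1, hy.2.le⟩, le_abs_self R]

/-- closed in the plane, and winding around a lattice point `k` and around `k + 1/2` -/
def Pinv (a : ℝ → ℂ) : Prop :=
  (∀ t, a (t + 1) = a t) ∧ ∃ k ∈ Lat, (∃ n : ℤ, n ≠ 0 ∧ Wind (fun t => a t - k) n) ∧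
    ∃ n : ℤ, n ≠ 0 ∧ Wind (fun t => a t - (k + 1 / 2)) n

theorem Pinv.of_homotopic {a b : ℝ → ℂ} (h : FreelyHomotopic a b) : Pinv a ↔ Pinv b := by
  obtain ⟨H, hc, ⟨v, hv, hH⟩, hS, h0, k', hk', h1⟩ := h
  have hne : ∀ k ∈ Lat, ∀ u t, H u t - k ≠ 0 := fun k hk u t h => (hS u t).1 (by
    rw [sub_eq_zero.1 h]; exact hk)
  have hne' : ∀ k ∈ Lat, ∀ u t, H u t - (k + 1 / 2) ≠ 0 := fun k hk u t h => (hS u t).2 (by
    rw [sub_eq_zero.1 h, add_sub_cancel_right]; exact hk)
  constructor
  · rintro ⟨hp, k, hk, ⟨n, hn, hw⟩, n', hn', hw'⟩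
    have hv0 : v = 0 := by
      have := hH 0 0
      rw [h0, h0, hp] at this
      linear_combination -this
    subst hv0
    simp only [add_zero] at hH
    refine ⟨fun t => ?_, k - k', Lat.sub_mem hk hk', ⟨n, hn, ?_⟩, n', hn', ?_⟩
    · have := hH 1 t
      rw [h1, h1] at this
      exact add_right_cancel this
    · have := Wind.homotopy (H := fun u t => H u t - k) (hc.sub continuous_const)
        (hne k hk) (fun u t => by rw [hH]) (u := 0) (v := 1) (n := n)
        (hw.congr fun t => by rw [h0])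
      exact this.congr fun t => by rw [h1]; ring
    · have := Wind.homotopy (H := fun u t => H u t - (k + 1 / 2)) (hc.sub continuous_const)
        (hne' k hk) (fun u t => by rw [hH]) (u := 0) (v := 1) (n := n')
        (hw'.congr fun t => by rw [h0])
      exact this.congr fun t => by rw [h1]; ring
  · rintro ⟨hp, k, hk, ⟨n, hn, hw⟩, n', hn', hw'⟩
    have hv0 : v = 0 := by
      have := hH 1 0
      rw [h1, h1, hp] at this
      linear_combination -this
    subst hv0
    simp only [add_zero] at hH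
    refine ⟨fun t => ?_, k + k', Lat.add_mem hk hk', ⟨n, hn, ?_⟩, n', hn', ?_⟩
    · have := hH 0 t
      rwa [h0, h0] at this
    · have := Wind.homotopy (H := fun u t => H u t - (k + k')) (hc.sub continuous_const)
        (hne _ (Lat.add_mem hk hk')) (fun u t => by rw [hH]) (u := 1) (v := 0) (n := n)
        (hw.congr fun t => by rw [h1]; ring)
      exact this.congr fun t => by rw [h0]
    · have := Wind.homotopy (H := fun u t => H u t - (k + k' + 1 / 2)) (hc.sub continuous_const)
        (hne' _ (Lat.add_mem hk hk')) (fun u t => by rw [hH]) (u := 1) (v := 0) (n := n')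
        (hw'.congr fun t => by rw [h1]; ring)
      exact this.congr fun t => by rw [h0]

theorem Pinv.neg {a : ℝ → ℂ} (h : Pinv a) : Pinv fun t => a (-t) := by
  obtain ⟨hp, k, hk, ⟨n, hn, hw⟩, n', hn', hw'⟩ := h
  refine ⟨fun t => ?_, k, hk, ⟨-n, neg_ne_zero.2 hn, hw.rev⟩, -n', neg_ne_zero.2 hn', hw'.rev⟩
  have := hp (-(t + 1))
  rw [show -(t + 1) + 1 = -t by ring] at this
  exact this.symm

theorem Pinv.neg_iff {a : ℝ → ℂ} : Pinv (fun t => a (-t)) ↔ Pinv a :=
  ⟨fun h => by simpa using h.neg, Pinv.neg⟩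

theorem Pinv.homotopic {a b : Curve} (h : Homotopic a b) : Pinv a.f ↔ Pinv b.f := by
  rcases h with h | h
  · exact Pinv.of_homotopic h
  · exact (Pinv.of_homotopic h).trans Pinv.neg_iff

/-- the invariant of a class -/
def Pcls : Cls → Prop := Quot.lift (fun a => Pinv a.f) fun _ _ h => propext (Pinv.homotopic h)

theorem Pinv.essential {a : ℝ → ℂ} (h : Pinv a) : Essential a := by
  refine ⟨?_, ?_⟩
  · rintro ⟨z, hz, hzh⟩
    obtain ⟨-, k, hk, ⟨n, hn, hw⟩, -⟩ := (Pinv.of_homotopic hzh).1 h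
    have hzk : 0 < ‖z - k‖ := norm_pos_iff.2 (sub_ne_zero.2 fun e => hz.1 (e ▸ hk))
    refine hn (hw.unique (Wind.far (b := fun _ => z) continuous_const (fun _ => rfl) (P := z)
      (ρ := ‖z - k‖) (fun _ => by simpa using hzk) le_rfl))
  · rintro ⟨P, hP, hε⟩
    obtain ⟨b, hb, hbP⟩ := hε (1 / 2) (by norm_num)
    have hbc : Continuous b := by
      obtain ⟨H, hc, -, -, -, k, -, h1⟩ := hb
      have : b = fun t => H 1 t - k := funext fun t => by rw [h1]; ring
      rw [this]
      exact (hc.comp (Continuous.prodMk continuous_const continuous_id)).sub continuous_const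
    obtain ⟨hp, k, hk, ⟨n, hn, hw⟩, n', hn', hw'⟩ := (Pinv.of_homotopic hb).1 h
    obtain ⟨m, l, rfl⟩ := mem_Lat.1 hk
    have hint : ∀ m : ℤ, (1 / 2 : ℝ) ≤ |(m : ℝ) + 1 / 2| := by
      intro m
      rcases le_or_gt 0 m with h | h
      · have : (0 : ℝ) ≤ m := by exact_mod_cast h
        exact le_abs.2 (Or.inl (by linarith))
      · have h' : m ≤ -1 := by omega
        have : (m : ℝ) ≤ -1 := by exact_mod_cast h'
        exact le_abs.2 (Or.inr (by linarith))
    rcases hP with rfl | rfl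
    · refine hn' (hw'.unique (Wind.far hbc hp hbP ?_))
      refine le_trans ?_ (abs_re_le_norm _)
      have := hint m
      rw [← abs_neg] at this
      simpa using this
    · refine hn (hw.unique (Wind.far hbc hp hbP ?_))
      refine le_trans ?_ (abs_re_le_norm _)
      have := hint (-m)
      have e : (1 / 2 - ((m : ℂ) + l * I)).re = ((-m : ℤ) : ℝ) + 1 / 2 := by
        simp; ring
      rwa [e]

theorem parity (a b : Curve) (hT : Transverse a b) (hb : ∀ t, b.f (t + 1) = b.f t) :
    inter a b ≠ 1 := by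
  intro h
  obtain ⟨s₀, hs⟩ := Set.encard_eq_one.1 h
  obtain ⟨-, t₀, hk⟩ : s₀ ∈ Ico (0 : ℝ) 1 ∧ ∃ t, a.f s₀ - b.f t ∈ Lat := by
    have : s₀ ∈ {s : ℝ | s ∈ Ico (0 : ℝ) 1 ∧ ∃ t, a.f s - b.f t ∈ Lat} := by
      rw [hs]; exact mem_singleton _
    exact this
  obtain ⟨v, hv, hav⟩ := a.closed
  have hac : Continuous a.f := a.contDiff.continuous
  have hbc : Continuous b.f := b.contDiff.continuous
  have huniq : ∀ s t, a.f s - b.f t ∈ Lat → ∃ n : ℤ, s = s₀ + n := by
    intro s t hst
    have h1 : a.f s = a.f (Int.fract s) + ⌊s⌋ * v := by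
      rw [← add_int hav ⌊s⌋ (Int.fract s), Int.fract_add_floor]
    have h2 : Int.fract s ∈ {s : ℝ | s ∈ Ico (0 : ℝ) 1 ∧ ∃ t, a.f s - b.f t ∈ Lat} := by
      refine ⟨⟨Int.fract_nonneg s, Int.fract_lt_one s⟩, t, ?_⟩
      have : a.f (Int.fract s) - b.f t = (a.f s - b.f t) - ⌊s⌋ • v := by
        rw [h1, zsmul_eq_mul]; ring
      rw [this]
      exact Lat.sub_mem hst (Lat.zsmul_mem hv _)
    rw [hs, mem_singleton_iff] at h2
    exact ⟨⌊s⌋, by rw [← h2, Int.fract_add_floor]⟩
  set k := a.f s₀ - b.f t₀ with hkdef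
  set b' : ℝ → ℂ := fun t => b.f t + k with hb'
  have hb'c : Continuous b' := hbc.add continuous_const
  have hb'p : ∀ t, b' (t + 1) = b' t := fun t => by simp only [hb', hb]
  have hab : a.f s₀ = b' t₀ := by simp only [hb', hkdef]; ring
  have huniq2 : ∀ s t, a.f s = b' t → ∃ n : ℤ, s = s₀ + n ∧ (n : ℂ) * v = 0 := by
    intro s t hst
    obtain ⟨n, hn⟩ := huniq s t (by rw [hst]; simp only [hb', add_sub_cancel_left]; exact hk)
    refine ⟨n, hn, ?_⟩
    have h1 : a.f s = a.f s₀ + n * v := by rw [hn, add_int hav]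
    have h2 : b.f t - b.f t₀ = n * v := by
      have : b.f t + k = a.f s₀ + n * v := by rw [← h1, hst]
      rw [hkdef] at this
      linear_combination this
    obtain ⟨m, hm⟩ := b.simple t t₀ (by
      rw [h2, ← zsmul_eq_mul]; exact Lat.zsmul_mem hv _)
    have h3 : b.f t = b.f t₀ := by
      have := add_int (a := b.f) (v := 0) (fun t => by rw [hb, add_zero]) m t₀
      rw [show t₀ + (m : ℝ) = t by linarith, mul_zero, add_zero] at this
      exact this
    rw [← h2, h3, sub_self]
  obtain ⟨δ₁, hδ₁, hcross⟩ := crossing (a := a.f) (b := b') (s₀ := s₀) (t₀ := t₀)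
    (a.contDiff.differentiable one_ne_zero).differentiableAt.hasDerivAt
    ((b.contDiff.differentiable one_ne_zero).differentiableAt.hasDerivAt.add_const k)
    hb'c hb'p hab (fun t ht => b.simple t t₀ (by
      have : b.f t - b.f t₀ = 0 := by
        simp only [hb'] at ht; linear_combination ht
      rw [this]; exact Lat.zero_mem)) (hT s₀ t₀ hk)
  set δ := min (δ₁ / 2) (1 / 4) with hδ
  have hδ0 : 0 < δ := by positivity
  have hδlt : δ < δ₁ := (min_le_left _ _).trans_lt (by linarith)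
  have hδq : δ ≤ 1 / 4 := min_le_right _ _
  have hnp : ∀ t, b' t ≠ a.f (s₀ + δ) := by
    intro t ht
    obtain ⟨n, hn, -⟩ := huniq2 _ t ht.symm
    have h1 : (n : ℝ) = δ := by linarith
    have h2 : (0 : ℝ) < n := by linarith
    have h3 : (n : ℝ) < 1 := by linarith
    have h4 : (0 : ℤ) < n := by exact_mod_cast h2
    have h5 : n < (1 : ℤ) := by exact_mod_cast h3
    omega
  have hnm : ∀ t, b' t ≠ a.f (s₀ - δ) := by
    intro t ht
    obtain ⟨n, hn, -⟩ := huniq2 _ t ht.symm
    have h1 : (n : ℝ) = -δ := by linarith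
    have h2 : (n : ℝ) < 0 := by linarith
    have h3 : (-1 : ℝ) < n := by linarith
    have h4 : n < (0 : ℤ) := by exact_mod_cast h2
    have h5 : (-1 : ℤ) < n := by exact_mod_cast h3
    omega
  obtain ⟨n, hn⟩ := exists_wind (f := fun t => b' t - a.f (s₀ + δ)) (by fun_prop)
    (fun t => sub_ne_zero.2 (hnp t)) (fun t => by rw [hb'p])
  obtain ⟨m, hm⟩ := exists_wind (f := fun t => b' t - a.f (s₀ - δ)) (by fun_prop)
    (fun t => sub_ne_zero.2 (hnm t)) (fun t => by rw [hb'p])
  refine hcross δ hδ0 hδlt n m hnm hnp hn hm ?_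
  rcases eq_or_ne v 0 with rfl | hv0
  · have h1 := (Wind.move hb'c hb'p hac (p := s₀ + δ) (q := s₀ + 1 - δ) (by linarith)
      (fun u hu t ht => by
        obtain ⟨l, hl, -⟩ := huniq2 u t ht.symm
        have h2 : (0 : ℝ) < l := by linarith [hu.1]
        have h3 : (l : ℝ) < 1 := by linarith [hu.2]
        have h4 : (0 : ℤ) < l := by exact_mod_cast h2
        have h5 : l < (1 : ℤ) := by exact_mod_cast h3
        omega)).1 hn
    have h2 : a.f (s₀ + 1 - δ) = a.f (s₀ - δ) := by
      rw [show s₀ + 1 - δ = (s₀ - δ) + 1 by ring, hav, add_zero]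
    rw [h2] at h1
    exact h1.unique hm
  · have hz : ∀ n : ℤ, (n : ℂ) * v = 0 → n = 0 := fun n hn => by
      rcases mul_eq_zero.1 hn with h | h
      · exact_mod_cast h
      · exact absurd h hv0
    obtain ⟨R, hR0, hR⟩ := exists_bound hb'c hb'p
    have hfar : ∀ x : ℂ, ∃ N : ℕ, R ≤ ‖x + N * v‖ ∧ R ≤ ‖x - N * v‖ := by
      intro x
      obtain ⟨N, hN⟩ := exists_nat_gt ((R + ‖x‖) / ‖v‖)
      have hvn : 0 < ‖v‖ := norm_pos_iff.2 hv0
      rw [div_lt_iff₀ hvn] at hN
      have hNv : ‖(N : ℂ) * v‖ = N * ‖v‖ := by rw [norm_mul, Complex.norm_natCast]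
      refine ⟨N, ?_, ?_⟩
      · have := norm_sub_norm_le ((N : ℂ) * v) (-x)
        rw [norm_neg, hNv, sub_neg_eq_add, add_comm ((N : ℂ) * v)] at this
        linarith
      · have := norm_sub_norm_le ((N : ℂ) * v) x
        rw [hNv, norm_sub_rev] at this
        linarith
    have hn0 : n = 0 := by
      obtain ⟨N, hN, -⟩ := hfar (a.f (s₀ + δ))
      have h1 := (Wind.move hb'c hb'p hac (p := s₀ + δ) (q := s₀ + δ + (N : ℤ))
        (by push_cast; linarith [Nat.cast_nonneg (α := ℝ) N])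
        (fun u hu t ht => by
          obtain ⟨l, hl, hl'⟩ := huniq2 u t ht.symm
          rw [hz l hl'] at hl
          simp only [Int.cast_zero, add_zero] at hl
          linarith [hu.1])).1 hn
      refine h1.unique (Wind.far hb'c hb'p (P := 0) (ρ := R) (by simpa using hR) ?_)
      rw [zero_sub, norm_neg, add_int hav]
      exact_mod_cast hN
    have hm0 : m = 0 := by
      obtain ⟨N, -, hN⟩ := hfar (a.f (s₀ - δ))
      have h1 := (Wind.move hb'c hb'p hac (p := s₀ - δ + (-N : ℤ)) (q := s₀ - δ)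
        (by push_cast; linarith [Nat.cast_nonneg (α := ℝ) N])
        (fun u hu t ht => by
          obtain ⟨l, hl, hl'⟩ := huniq2 u t ht.symm
          rw [hz l hl'] at hl
          simp only [Int.cast_zero, add_zero] at hl
          linarith [hu.2])).2 hm
      refine h1.unique (Wind.far hb'c hb'p (P := 0) (ρ := R) (by simpa using hR) ?_)
      rw [zero_sub, norm_neg, add_int hav]
      push_cast
      rw [neg_mul, ← sub_eq_add_neg]
      exact hN
    rw [hn0, hm0]

end Pool.Agent.H491W
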