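import Pool.Agent.H491W.Circle

/-!
# The parallel copy of the separating curve
-/

open Complex Topology Set Filter ComplexConjugate

namespace Pool.Agent.H491W

/-- `b` pushed along its normal by `ε` -/
noncomputable def push (b : ℝ → ℂ) (ε : ℝ) : ℝ → ℂ := fun t => b t + ε * (I * deriv b t)

theorem push_cont {b : ℝ → ℂ} (hb : ContDiff ℝ 1 b) :
    Continuous fun p : ℝ × ℝ => push b p.1 p.2 := by
  have h1 := hb.continuous
  have h2 := hb.continuous_deriv le_rfl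
  unfold push
  fun_prop

theorem deriv_per {b : ℝ → ℂ} (hp : ∀ t, b (t + 1) = b t) (t : ℝ) : deriv b (t + 1) = deriv b t := by
  rw [← deriv_comp_add_const b 1 t]
  congr 1
  funext x
  exact hp x

theorem push_per {b : ℝ → ℂ} (hp : ∀ t, b (t + 1) = b t) (ε t : ℝ) :
    push b ε (t + 1) = push b ε t := by
  simp only [push, hp, deriv_per hp]

/-- near a point of the curve -/
theorem push_local {b : ℝ → ℂ} (hb : ContDiff ℝ 1 b) {s₀ : ℝ} (hreg : deriv b s₀ ≠ 0) :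
    ∀ᶠ z : ℝ × ℝ × ℝ in 𝓝 (0, s₀, s₀), 0 < z.1 → push b z.1 z.2.1 - b z.2.2 ∉ Lat := by
  have hB : 0 < ‖deriv b s₀‖ := norm_pos_iff.2 hreg
  set B := deriv b s₀ with hBdef
  set κ := ‖B‖ / 4 with hκ
  have hκ0 : 0 < κ := by positivity
  have hc := push_cont hb
  have hbc := hb.continuous
  have hdc := hb.continuous_deriv le_rfl
  -- small difference
  have e1 : ∀ᶠ z : ℝ × ℝ × ℝ in 𝓝 (0, s₀, s₀), ‖push b z.1 z.2.1 - b z.2.2‖ < 1 := by
    have hcont : Continuous fun z : ℝ × ℝ × ℝ => ‖push b z.1 z.2.1 - b z.2.2‖ := by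
      unfold push; fun_prop
    refine (hcont.tendsto _).eventually (gt_mem_nhds ?_)
    simp [push]
  -- strict derivative
  have e2 : ∀ᶠ z : ℝ × ℝ × ℝ in 𝓝 (0, s₀, s₀),
      ‖b z.2.2 - b z.2.1 - ((z.2.2 - z.2.1 : ℝ) : ℂ) * B‖ ≤ κ * |z.2.2 - z.2.1| := by
    have hs : HasStrictDerivAt b B s₀ := hb.contDiffAt.hasStrictDerivAt one_ne_zero
    have h2 := hs.hasStrictFDerivAt.isLittleO.def hκ0
    have ht : Tendsto (fun z : ℝ × ℝ × ℝ => (z.2.2, z.2.1)) (𝓝 (0, s₀, s₀)) (𝓝 (s₀, s₀)) :=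
      Continuous.tendsto' (by fun_prop) _ _ rfl
    filter_upwards [ht.eventually h2] with z hz
    simpa [Real.norm_eq_abs] using hz
  have e3 : ∀ᶠ z : ℝ × ℝ × ℝ in 𝓝 (0, s₀, s₀), ‖deriv b z.2.1 - B‖ < κ := by
    have hcont : Continuous fun z : ℝ × ℝ × ℝ => ‖deriv b z.2.1 - B‖ := by fun_prop
    refine (hcont.tendsto _).eventually (gt_mem_nhds ?_)
    simpa [hBdef] using hκ0
  filter_upwards [e1, e2, e3] with z h1 h2 h3 h4 h5
  obtain ⟨ε, s, t⟩ := z
  simp only at h1 h2 h3 h4 h5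
  have h6 := sub_eq_zero.1 (eq_zero_of_norm_lt h5 h1)
  have h7 : b t - b s = ε * (I * deriv b s) := by rw [← h6]; simp only [push]; ring
  set x : ℝ := t - s with hx
  have h8 : ((x : ℂ) - ε * I) * B = -(b t - b s - x * B) + ε * I * (deriv b s - B) := by
    rw [h7]; ring
  have h9 : ‖(x : ℂ) - ε * I‖ * ‖B‖ ≤ κ * |x| + ε * κ := by
    rw [← norm_mul, h8]
    refine (norm_add_le _ _).trans (add_le_add ?_ ?_)
    · rw [norm_neg]; exact h2
    · rw [norm_mul, norm_mul, norm_real, Real.norm_eq_abs, abs_of_pos h4, norm_I, mul_one]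
      gcongr
  have h10 : |x| ≤ ‖(x : ℂ) - ε * I‖ := by
    have := abs_re_le_norm ((x : ℂ) - ε * I)
    simpa using this
  have h11 : ε ≤ ‖(x : ℂ) - ε * I‖ := by
    have := abs_im_le_norm ((x : ℂ) - ε * I)
    simp only [sub_im, ofReal_im, mul_im, ofReal_re, I_im, mul_one, I_re, mul_zero, add_zero,
      zero_sub, abs_neg] at this
    rwa [abs_of_pos h4] at this
  nlinarith [norm_nonneg ((x : ℂ) - ε * I)]

theorem exists_push (b : Curve) (hb : Pinv b.f) (A : Set Curve) (hA : A.Finite)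
    (hdis : ∀ a ∈ A, ∀ s t, b.f s - a.f t ∉ Lat) (V : Set ℂ) (hV : IsOpen V)
    (hbV : ∀ t, b.f t ∈ V) :
    ∃ d : ℝ → ℂ, IsClosedCurve d ∧ Pinv d ∧ (∀ s t, d s - b.f t ∉ Lat) ∧
      (∀ a ∈ A, ∀ s t, d s - a.f t ∉ Lat) ∧ ∀ t, d t ∈ V := by
  have hp := hb.1
  have hcd := b.contDiff
  have hbc := hcd.continuous
  have hdc := hcd.continuous_deriv le_rfl
  have hpc := push_cont hcd
  -- avoid `b`
  set K : Set (ℝ × ℝ) := {p | p.1 ∈ Icc (0 : ℝ) 1 ∧ |p.2 - p.1| ≤ 1 / 2} with hK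
  have hKc : IsCompact K := by
    refine (isCompact_Icc (a := ((0 : ℝ), (-1 : ℝ))) (b := ((1 : ℝ), (2 : ℝ)))).of_isClosed_subset
      ?_ ?_
    · have h1 : IsClosed {p : ℝ × ℝ | p.1 ∈ Icc (0 : ℝ) 1} := isClosed_Icc.preimage continuous_fst
      have h2 : IsClosed {p : ℝ × ℝ | |p.2 - p.1| ≤ 1 / 2} :=
        isClosed_le (by fun_prop) continuous_const
      exact h1.inter h2
    · rintro ⟨x, y⟩ ⟨h1, h2⟩
      simp only at h1 h2
      rw [abs_le] at h2
      exact ⟨⟨h1.1, by simp only; linarith [h1.1, h2.1]⟩, ⟨h1.2, by simp only; linarith [h1.2, h2.2]⟩⟩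
  have E1 : ∀ᶠ ε : ℝ in 𝓝 0, ∀ p ∈ K, 0 < ε → push b.f ε p.1 - b.f p.2 ∉ Lat := by
    refine hKc.eventually_forall_of_forall_eventually fun p hpK => ?_
    obtain ⟨s, t⟩ := p
    by_cases h : b.f s - b.f t ∈ Lat
    · obtain ⟨n, hn⟩ := b.simple s t h
      have h1 : |(n : ℝ)| ≤ 1 / 2 := by rw [← hn, abs_sub_comm]; exact hpK.2
      have h2 : n = 0 := by
        have h3 : |n| < 1 := by
          have : |(n : ℝ)| < 1 := by linarith
          exact_mod_cast this
        exact Int.abs_lt_one_iff.1 h3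
      rw [h2] at hn
      have h3 : t = s := by push_cast at hn; linarith
      subst h3
      exact push_local hcd (b.regular _)
    · have hcont : Continuous fun z : ℝ × ℝ × ℝ => push b.f z.1 z.2.1 - b.f z.2.2 := by
        unfold push; fun_prop
      have : ∀ᶠ z : ℝ × ℝ × ℝ in 𝓝 (0, s, t), push b.f z.1 z.2.1 - b.f z.2.2 ∈ (Lat : Set ℂ)ᶜ :=
        (hcont.tendsto _).eventually (Lat_closed.isOpen_compl.mem_nhds (by simpa [push] using h))
      filter_upwards [this] with z hz _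
      exact hz
  have E2 : ∀ᶠ ε : ℝ in 𝓝 0, ∀ a ∈ A, ∀ p ∈ Icc (0 : ℝ) 1 ×ˢ Icc (0 : ℝ) 1,
      push b.f ε p.1 - a.f p.2 ∉ Lat := by
    rw [hA.eventually_all]
    intro a ha
    refine (isCompact_Icc.prod isCompact_Icc).eventually_forall_of_forall_eventually fun p _ => ?_
    obtain ⟨s, t⟩ := p
    have hac := a.contDiff.continuous
    have hcont : Continuous fun z : ℝ × ℝ × ℝ => push b.f z.1 z.2.1 - a.f z.2.2 := by
      unfold push; fun_prop
    exact (hcont.tendsto _).eventually (Lat_closed.isOpen_compl.mem_nhds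
      (by simpa [push] using hdis a ha s t))
  have E3 : ∀ᶠ ε : ℝ in 𝓝 0, ∀ s ∈ Icc (0 : ℝ) 1, push b.f ε s ∈ S := by
    refine isCompact_Icc.eventually_forall_of_forall_eventually fun s _ => ?_
    exact (hpc.tendsto _).eventually (S_open.mem_nhds (by simpa [push] using b.mem s))
  have E4 : ∀ᶠ ε : ℝ in 𝓝 0, ∀ s ∈ Icc (0 : ℝ) 1, push b.f ε s ∈ V := by
    refine isCompact_Icc.eventually_forall_of_forall_eventually fun s _ => ?_
    exact (hpc.tendsto _).eventually (hV.mem_nhds (by simpa [push] using hbV s))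
  obtain ⟨ε₁, hε₁, hall⟩ := Metric.eventually_nhds_iff.1 (E1.and (E2.and (E3.and E4)))
  set ε := ε₁ / 2 with hε
  have hε0 : 0 < ε := by positivity
  have hεm : ∀ x ∈ Icc (0 : ℝ) 1, dist (x * ε) 0 < ε₁ := by
    intro x hx
    rw [dist_zero_right, Real.norm_eq_abs, abs_of_nonneg (mul_nonneg hx.1 hε0.le)]
    nlinarith [hx.2]
  have hfr : ∀ ε s, push b.f ε s = push b.f ε (Int.fract s) := by
    intro ε s
    have := add_int (a := push b.f ε) (v := 0) (fun t => by rw [push_per hp, add_zero]) ⌊s⌋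
      (Int.fract s)
    rwa [Int.fract_add_floor, mul_zero, add_zero] at this
  have hmemS : ∀ x ∈ Icc (0 : ℝ) 1, ∀ s, push b.f (x * ε) s ∈ S := by
    intro x hx s
    rw [hfr]
    exact (hall (hεm x hx)).2.2.1 _ ⟨Int.fract_nonneg s, (Int.fract_lt_one s).le⟩
  have h1m : (1 : ℝ) ∈ Icc (0 : ℝ) 1 := ⟨zero_le_one, le_rfl⟩
  have hd1 := hall (by simpa using hεm 1 h1m : dist ε 0 < ε₁)
  set w : ℝ → ℝ := fun u => max 0 (min 1 u) with hw
  have hwm : ∀ u, w u ∈ Icc (0 : ℝ) 1 := fun u =>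
    ⟨le_max_left _ _, max_le zero_le_one (min_le_left _ _)⟩
  have hhom : FreelyHomotopic b.f (push b.f ε) := by
    refine ⟨fun u t => push b.f (w u * ε) t, ?_, ⟨0, Lat.zero_mem, fun u t => ?_⟩,
      fun u t => hmemS _ (hwm u) t, fun t => ?_, 0, Lat.zero_mem, fun t => ?_⟩
    · simp only [push, hw]
      fun_prop
    · simp only [push_per hp, add_zero]
    · simp [hw, push]
    · simp [hw]
  refine ⟨push b.f ε, ⟨?_, ⟨0, Lat.zero_mem, fun t => by rw [push_per hp, add_zero]⟩, fun t => ?_⟩,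
    (Pinv.of_homotopic hhom).1 hb, ?_, ?_, fun t => ?_⟩
  · unfold push; fun_prop
  · simpa using hmemS 1 h1m t
  · intro s t hst
    -- move `s` into `[0, 1)` and `t` close to `s`
    have h1 : b.f t = b.f (t + (⌊Int.fract s - t + 1 / 2⌋ : ℤ)) := by
      rw [add_int (a := b.f) (v := 0) (fun t => by rw [hp, add_zero]), mul_zero, add_zero]
    rw [hfr, h1] at hst
    refine hd1.1 (Int.fract s, t + (⌊Int.fract s - t + 1 / 2⌋ : ℤ)) ⟨⟨Int.fract_nonneg s,
      (Int.fract_lt_one s).le⟩, ?_⟩ hε0 hst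
    have h2 := Int.floor_le (Int.fract s - t + 1 / 2)
    have h3 := Int.lt_floor_add_one (Int.fract s - t + 1 / 2)
    simp only
    rw [abs_le]
    constructor <;> linarith
  · intro a ha s t hst
    obtain ⟨v, hv, hav⟩ := a.closed
    have h1 : a.f t = a.f (Int.fract t) + ⌊t⌋ * v := by
      rw [← add_int hav ⌊t⌋ (Int.fract t), Int.fract_add_floor]
    refine hd1.2.1 a ha (Int.fract s, Int.fract t) ⟨⟨Int.fract_nonneg s,
      (Int.fract_lt_one s).le⟩, ⟨Int.fract_nonneg t, (Int.fract_lt_one t).le⟩⟩ ?_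
    simp only
    rw [← hfr]
    have : push b.f ε s - a.f (Int.fract t) = (push b.f ε s - a.f t) + ⌊t⌋ • v := by
      rw [h1, zsmul_eq_mul]; ring
    rw [this]
    exact Lat.add_mem hst (Lat.zsmul_mem hv _)
  · rw [hfr]
    exact hd1.2.2.2 _ ⟨Int.fract_nonneg t, (Int.fract_lt_one t).le⟩

end Pool.Agent.H491W
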