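import Pool.Agent.H491W.Push

/-!
# Complementary components on the twice punctured torus
-/

open Complex Topology Set Filter ComplexConjugate

namespace Pool.Agent.H491W

/-- the torus `ℂ / (ℤ + ℤ i)` -/
abbrev Torus : Type := ℂ ⧸ Lat

/-- the projection of the plane onto the torus -/
def π : ℂ → Torus := QuotientAddGroup.mk

/-- the surface: the torus without the two points `0` and `1/2` -/
def Surf : Set Torus := {x | x ≠ π 0 ∧ x ≠ π (1 / 2)}

/-- homeomorphic to an open disk -/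
def IsDisk (C : Set Torus) : Prop := Nonempty (C ≃ₜ Metric.ball (0 : ℂ) 1)

/-- an open disk without one point, the point being a puncture of the surface -/
def IsOncePuncturedDisk (C : Set Torus) : Prop :=
  ∃ P : Torus, (P = π 0 ∨ P = π (1 / 2)) ∧ P ∉ C ∧ IsDisk (insert P C)

/-- the part of the surface outside the curves `r γ`, `γ ∈ Γ` -/
def complement (Γ : Set Cls) (r : Cls → Curve) : Set Torus :=
  Surf \ ⋃ γ ∈ Γ, π '' range (r γ).f

theorem π_eq {z w : ℂ} : π z = π w ↔ z - w ∈ Lat := by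
  have h : (QuotientAddGroup.mk z : ℂ ⧸ Lat) = QuotientAddGroup.mk w ↔ -z + w ∈ Lat :=
    QuotientAddGroup.eq
  refine h.trans ?_
  rw [← neg_mem_iff, show -(-z + w) = z - w by ring]

theorem mem_Surf {z : ℂ} : π z ∈ Surf ↔ z ∈ S := by
  simp only [Surf, S, mem_ofPred_eq, Ne, π_eq, sub_zero]

theorem Lat_discrete : IsDiscrete (Lat : Set ℂ) := by
  refine ⟨DiscreteTopology.of_forall_le_dist (r := 1) one_pos ?_⟩
  intro x y hxy
  by_contra hcon
  push Not at hcon
  apply hxy
  have h1 : ‖(x : ℂ) - y‖ < 1 := by rwa [← dist_eq_norm]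
  exact Subtype.ext (sub_eq_zero.1 (eq_zero_of_norm_lt (Lat.sub_mem x.2 y.2) h1))

theorem π_cover : IsCoveringMap π :=
  (AddSubgroup.isAddQuotientCoveringMap_of_comm Lat Lat_discrete).isCoveringMap

theorem const_of_Lat {X : Type*} [TopologicalSpace X] [PreconnectedSpace X] {f : X → ℂ}
    (hf : Continuous f) (h1 : ∀ x, f x ∈ Lat) (x y : X) : f x = f y := by
  obtain ⟨z, -, hz⟩ := isPreconnected_univ.eqOn_const_of_mapsTo Lat_discrete hf.continuousOn
    (fun x _ => h1 x) ⟨0, Lat.zero_mem⟩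
  rw [hz (mem_univ x), hz (mem_univ y)]
  rfl

theorem wind_of_disk {C : Set Torus} (hC : IsDisk C) {d : ℝ → ℂ} (hd : Continuous d)
    (hp : ∀ t, d (t + 1) = d t) (hdC : ∀ t, π (d t) ∈ C) {q : ℂ} (hq : π q ∉ C) :
    Wind (fun t => d t - q) 0 := by
  obtain ⟨h⟩ := hC
  set w : ℝ → ℝ := fun u => max 0 (min 1 u) with hw
  have hwm : ∀ u, w u ∈ Icc (0 : ℝ) 1 := fun u =>
    ⟨le_max_left _ _, max_le zero_le_one (min_le_left _ _)⟩
  have hπc : Continuous π := π_cover.continuous
  let φ : ℝ → Metric.ball (0 : ℂ) 1 := fun t => h ⟨π (d t), hdC t⟩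
  have hφ : Continuous φ := h.continuous.comp (Continuous.subtype_mk (hπc.comp hd) _)
  have hφp : ∀ t, φ (t + 1) = φ t := fun t => by simp only [φ, hp]
  let g : ℝ × ℝ → Metric.ball (0 : ℂ) 1 := fun p =>
    ⟨(1 - w p.1) • (φ p.2 : ℂ) + w p.1 • (φ 0 : ℂ),
      (convex_ball (0 : ℂ) 1) (φ p.2).2 (φ 0).2 (sub_nonneg.2 (hwm _).2) (hwm _).1 (by ring)⟩
  have hg : Continuous g := by
    refine Continuous.subtype_mk ?_ _
    simp only [hw]
    fun_prop
  let G : C(ℝ × ℝ, Torus) := ⟨fun p => (h.symm (g p) : Torus),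
    continuous_subtype_val.comp (h.symm.continuous.comp hg)⟩
  have hG0 : ∀ t, G (0, t) = π (d t) := by
    intro t
    have : g (0, t) = φ t := by
      apply Subtype.ext
      simp [g, hw]
    simp only [G, ContinuousMap.coe_mk, this, φ, Homeomorph.symm_apply_apply]
  have hG1 : ∀ t, G (1, t) = π (d 0) := by
    intro t
    have : g (1, t) = φ 0 := by
      apply Subtype.ext
      simp [g, hw]
    simp only [G, ContinuousMap.coe_mk, this, φ, Homeomorph.symm_apply_apply]
  have hGp : ∀ u t, G (u, t + 1) = G (u, t) := by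
    intro u t
    have : g (u, t + 1) = g (u, t) := by
      apply Subtype.ext
      simp only [g, hφp]
    simp only [G, ContinuousMap.coe_mk, this]
  obtain ⟨F, ⟨hF0, hFG⟩, -⟩ := π_cover.existsUnique_continuousMap_lifts G (0, 0) (d 0)
    (hG0 0).symm
  have hF : ∀ p, π (F p) = G p := fun p => congrFun hFG p
  have hFc : Continuous F := F.continuous
  have h0 : ∀ t, F (0, t) = d t := by
    intro t
    have h1 : ∀ t, F (0, t) - d t ∈ Lat := fun t => π_eq.1 (by rw [hF, hG0])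
    have := const_of_Lat (f := fun t => F (0, t) - d t) (by fun_prop) h1 t 0
    simp only [hF0, sub_self] at this
    exact sub_eq_zero.1 this
  have hper : ∀ u t, F (u, t + 1) = F (u, t) := by
    intro u t
    have h1 : ∀ p : ℝ × ℝ, F (p.1, p.2 + 1) - F p ∈ Lat := fun p =>
      π_eq.1 (by rw [hF, hF, hGp])
    have := const_of_Lat (f := fun p : ℝ × ℝ => F (p.1, p.2 + 1) - F p) (by fun_prop) h1 (u, t)
      (0, 0)
    simp only [h0, hp, sub_self] at this
    exact sub_eq_zero.1 this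
  have h1 : ∀ t, F (1, t) = F (1, 0) := by
    intro t
    have h1 : ∀ t, F (1, t) - F (1, 0) ∈ Lat := fun t => π_eq.1 (by rw [hF, hF, hG1, hG1])
    have := const_of_Lat (f := fun t => F (1, t) - F (1, 0)) (by fun_prop) h1 t 0
    simp only [sub_self] at this
    exact sub_eq_zero.1 this
  have hne : ∀ u t, F (u, t) - q ≠ 0 := by
    intro u t h2
    apply hq
    rw [← sub_eq_zero.1 h2, hF]
    exact (h.symm (g (u, t))).2
  have hconst : Wind (fun t => F (1, t) - q) 0 := by
    have hz : 0 < ‖F (1, 0) - q‖ := norm_pos_iff.2 (hne 1 0)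
    exact Wind.far (b := fun t => F (1, t)) (by fun_prop) (hper 1) (P := F (1, 0))
      (ρ := ‖F (1, 0) - q‖) (fun t => by rw [h1 t, sub_self, norm_zero]; exact hz) le_rfl
  have := Wind.homotopy (H := fun u t => F (u, t) - q) (by fun_prop) hne
    (fun u t => by rw [hper]) (u := 1) (v := 0) hconst
  exact this.congr fun t => by rw [h0]

theorem not_disk {C : Set Torus} (hCS : C ⊆ Surf) {d : ℝ → ℂ} (hd : Continuous d) (hP : Pinv d)
    (hdC : ∀ t, π (d t) ∈ C) : ¬ IsDisk C ∧ ¬ IsOncePuncturedDisk C := by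
  obtain ⟨hp, k, hk, ⟨n, hn, hw⟩, n', hn', hw'⟩ := hP
  have hk0 : π k = π 0 := π_eq.2 (by rwa [sub_zero])
  have hk1 : π (k + 1 / 2) = π (1 / 2) := π_eq.2 (by rwa [add_sub_cancel_right])
  have h01 : π 0 ≠ π (1 / 2) := by
    intro h
    obtain ⟨m, l, hml⟩ := mem_Lat.1 (π_eq.1 h)
    have h1 := congrArg Complex.re hml
    simp at h1
    have h2 : (2 * m : ℝ) = -1 := by linarith
    have h3 : 2 * m = -1 := by exact_mod_cast h2
    omega
  refine ⟨fun hC => hn (hw.unique (wind_of_disk hC hd hp hdC ?_)), ?_⟩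
  · rw [hk0]
    exact fun h => (hCS h).1 rfl
  · rintro ⟨P, hP, -, hC⟩
    have hdC' : ∀ t, π (d t) ∈ insert P C := fun t => mem_insert_of_mem _ (hdC t)
    rcases hP with rfl | rfl
    · refine hn' (hw'.unique (wind_of_disk hC hd hp hdC' ?_))
      rw [hk1, mem_insert_iff]
      rintro (h | h)
      · exact h01 h.symm
      · exact (hCS h).2 rfl
    · refine hn (hw.unique (wind_of_disk hC hd hp hdC' ?_))
      rw [hk0, mem_insert_iff]
      rintro (h | h)
      · exact h01 h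
      · exact (hCS h).1 rfl

theorem disjoint_of_inter {a b : Curve} (h : inter a b = 0) (s t : ℝ) : a.f s - b.f t ∉ Lat := by
  intro hst
  rw [inter, Set.encard_eq_zero, Set.eq_empty_iff_forall_notMem] at h
  obtain ⟨v, hv, hav⟩ := a.closed
  have h1 : a.f s = a.f (Int.fract s) + ⌊s⌋ * v := by
    rw [← add_int hav ⌊s⌋ (Int.fract s), Int.fract_add_floor]
  refine h (Int.fract s) ⟨⟨Int.fract_nonneg s, Int.fract_lt_one s⟩, t, ?_⟩
  have : a.f (Int.fract s) - b.f t = (a.f s - b.f t) - ⌊s⌋ • v := by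
    rw [h1, zsmul_eq_mul]; ring
  rw [this]
  exact Lat.sub_mem hst (Lat.zsmul_mem hv _)

/-- every component of the complement of the curves `r γ`, `γ ∈ Γ`, is an open disk or a once
punctured open disk -/
def Fills (Γ : Set Cls) (r : Cls → Curve) : Prop :=
  ∀ x ∈ complement Γ r, IsDisk (connectedComponentIn (complement Γ r) x) ∨
    IsOncePuncturedDisk (connectedComponentIn (complement Γ r) x)

/-- the complementary component next to the separating curve -/
theorem bad_component {Γ : Set Cls} (h0 : c₀ ∈ Γ) (hΓ : ∀ γ ∈ Γ, ι γ c₀ = 0) {r : Cls → Curve}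
    (hr : IsMinimalPosition Γ r) (hfin : IsLocallyFinite Γ r) : ¬ Fills Γ r := by
  have hb : Pinv (r c₀).f := Pinv_of_mk (hr.1 c₀ h0)
  -- a neighbourhood of the separating curve which meets only finitely many curves
  obtain ⟨V, hV, hbV, F, hF, hVF⟩ : ∃ V : Set ℂ, IsOpen V ∧ (∀ t, (r c₀).f t ∈ V) ∧
      ∃ F : Set Cls, F.Finite ∧ ∀ γ ∈ Γ, (∃ w ∈ V, ∃ t, w - (r γ).f t ∈ Lat) → γ ∈ F := by
    have hbc := (r c₀).contDiff.continuous
    choose! U hU hUF using hfin
    have hK : IsCompact ((r c₀).f '' Icc (0 : ℝ) 1) := isCompact_Icc.image hbc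
    have hKS : ∀ z ∈ (r c₀).f '' Icc (0 : ℝ) 1, z ∈ S := by
      rintro _ ⟨t, -, rfl⟩
      exact (r c₀).mem t
    obtain ⟨T, hT, hcov⟩ := hK.elim_nhds_subcover (fun z => interior (U z)) fun z hz =>
      interior_mem_nhds.2 (hU z (hKS z hz))
    refine ⟨⋃ z ∈ T, interior (U z), isOpen_biUnion fun z _ => isOpen_interior, fun t => ?_,
      ⋃ z ∈ T, {γ | γ ∈ Γ ∧ ∃ w ∈ U z, ∃ t, w - (r γ).f t ∈ Lat},
      T.finite_toSet.biUnion fun z hz => hUF z (hKS z (hT z hz)), ?_⟩
    · have h1 : (r c₀).f t = (r c₀).f (Int.fract t) := by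
        have := add_int (a := (r c₀).f) (v := 0) (fun t => by rw [hb.1, add_zero]) ⌊t⌋ (Int.fract t)
        rwa [Int.fract_add_floor, mul_zero, add_zero] at this
      rw [h1]
      exact hcov ⟨_, ⟨Int.fract_nonneg t, (Int.fract_lt_one t).le⟩, rfl⟩
    · rintro γ hγ ⟨w, hw, t, ht⟩
      obtain ⟨z, hz, hwz⟩ := mem_iUnion₂.1 hw
      exact mem_iUnion₂.2 ⟨z, hz, hγ, w, interior_subset hwz, t, ht⟩
  obtain ⟨d, hd, hdP, hd1, hd2, hdV⟩ := exists_push (r c₀) hb (r '' ((F ∩ Γ) \ {c₀}))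
    (((hF.subset inter_subset_left).subset sdiff_subset).image r) (by
      rintro _ ⟨γ, ⟨⟨-, hγ⟩, hγc⟩, rfl⟩ s t h
      have h1 : inter (r γ) (r c₀) = 0 := by
        rw [(hr.2 γ hγ c₀ h0 hγc).2, hΓ γ hγ]
      apply disjoint_of_inter h1 t s
      rw [← neg_sub]
      exact Lat.neg_mem h) V hV hbV
  have hmem : ∀ t, π (d t) ∈ complement Γ r := by
    intro t
    refine ⟨mem_Surf.2 (hd.2.2 t), ?_⟩
    rw [mem_iUnion₂]
    rintro ⟨γ, hγ, _, ⟨s, rfl⟩, hs⟩
    have h1 : d t - (r γ).f s ∈ Lat := π_eq.1 hs.symm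
    by_cases hc : γ = c₀
    · subst hc; exact hd1 t s h1
    · exact hd2 (r γ) ⟨γ, ⟨⟨hVF γ hγ ⟨d t, hdV t, s, h1⟩, hγ⟩, hc⟩, rfl⟩ t s h1
  have hπc : Continuous π := π_cover.continuous
  have h1 : IsPreconnected (range fun t => π (d t)) :=
    isPreconnected_range (hπc.comp hd.1)
  have h2 := not_disk (C := connectedComponentIn (complement Γ r) (π (d 0)))
    ((connectedComponentIn_subset _ _).trans sdiff_subset) hd.1 hdP fun t =>
      h1.subset_connectedComponentIn (mem_range_self 0)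
        (by rintro _ ⟨t, rfl⟩; exact hmem t) (mem_range_self t)
  intro h
  rcases h _ (hmem 0) with h | h
  · exact h2.1 h
  · exact h2.2 h

end Pool.Agent.H491W
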