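import Mathlib

/-!
# Winding numbers of closed curves by lifting through the exponential
-/

open Complex Topology Set Filter

namespace Pool.Agent.H491W

/-- `f` is a closed curve in `ℂ ∖ {0}` with winding number `n` about `0`. -/
def Wind (f : ℝ → ℂ) (n : ℤ) : Prop :=
  ∃ θ : ℝ → ℂ, Continuous θ ∧ (∀ t, exp (θ t) = f t) ∧
    ∀ t, θ (t + 1) = θ t + 2 * Real.pi * I * n

theorem const_of_exp {X : Type*} [TopologicalSpace X] {S : Set X} (hS : IsPreconnected S)
    {f : X → ℂ} (hf : ContinuousOn f S) (h1 : ∀ x ∈ S, exp (f x) = 1) {x y : X} (hx : x ∈ S)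
    (hy : y ∈ S) : f x = f y := by
  have hd : DiscreteTopology (AddSubgroup.zmultiples (2 * Real.pi * I : ℂ) : Set ℂ) :=
    NormedSpace.discreteTopology_zmultiples _
  have hm : MapsTo f S (AddSubgroup.zmultiples (2 * Real.pi * I : ℂ) : Set ℂ) := by
    intro x hx
    obtain ⟨n, hn⟩ := exp_eq_one_iff.1 (h1 x hx)
    rw [SetLike.mem_coe, AddSubgroup.mem_zmultiples_iff]
    exact ⟨n, by rw [hn]; simp⟩
  obtain ⟨z, -, hz⟩ := hS.eqOn_const_of_mapsTo ⟨hd⟩ hf hm ⟨0, zero_mem _⟩
  rw [hz hx, hz hy]; rfl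

theorem exists_lift {X : Type*} [TopologicalSpace X] [LocallyPathConnectedSpace X]
    [ContractibleSpace X] {H : X → ℂ} (hc : Continuous H) (h0 : ∀ x, H x ≠ 0) :
    ∃ T : X → ℂ, Continuous T ∧ ∀ x, exp (T x) = H x := by
  obtain ⟨f, hf, hf'⟩ := exists_continuousOn_eqOn_exp_comp (X := X) (U := univ)
    (by
      have : ContractibleSpace (univ : Set X) := (Homeomorph.Set.univ X).contractibleSpace
      exact (inferInstance : SimplyConnectedSpace (univ : Set X))) isOpen_univ (g := H)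
    hc.continuousOn
    (by rintro ⟨x, -, hx⟩; exact h0 x hx)
  exact ⟨f, continuousOn_univ.1 hf, fun x => hf' (mem_univ x)⟩

theorem Wind.unique {f : ℝ → ℂ} {n m : ℤ} (h : Wind f n) (h' : Wind f m) : n = m := by
  obtain ⟨θ, hc, he, hp⟩ := h
  obtain ⟨θ', hc', he', hp'⟩ := h'
  have h1 : θ (0 + 1) - θ' (0 + 1) = θ 0 - θ' 0 :=
    const_of_exp isPreconnected_univ (f := fun t => θ t - θ' t)
      (hc.sub hc').continuousOn (fun x _ => by
        rw [exp_sub, he, he', div_self]; rw [← he]; exact exp_ne_zero _) (mem_univ _) (mem_univ _)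
  rw [hp, hp'] at h1
  have h2 : (2 * Real.pi * I : ℂ) * n = 2 * Real.pi * I * m := by linear_combination h1
  have h3 : (2 * Real.pi * I : ℂ) ≠ 0 := two_pi_I_ne_zero
  exact_mod_cast mul_left_cancel₀ h3 h2

theorem exists_wind_homotopy {H : ℝ → ℝ → ℂ} (hc : Continuous fun p : ℝ × ℝ => H p.1 p.2)
    (h0 : ∀ u t, H u t ≠ 0) (hp : ∀ u t, H u (t + 1) = H u t) :
    ∃ n : ℤ, ∀ u, Wind (H u) n := by
  obtain ⟨T, hT, hT'⟩ := exists_lift hc (fun p => h0 p.1 p.2)
  have key : ∀ p : ℝ × ℝ, T (p.1, p.2 + 1) - T p = T (0, 0 + 1) - T (0, 0) := by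
    intro p
    refine const_of_exp isPreconnected_univ (f := fun p : ℝ × ℝ => T (p.1, p.2 + 1) - T p)
      (x := p) (y := (0, 0))
      (Continuous.continuousOn (by fun_prop)) (fun x _ => ?_) (mem_univ _) (mem_univ _)
    rw [exp_sub, hT', hT']
    simp only [hp]
    exact div_self (h0 _ _)
  obtain ⟨n, hn⟩ : ∃ n : ℤ, T (0, 0 + 1) - T (0, 0) = n * (2 * Real.pi * I) := by
    apply exp_eq_one_iff.1
    rw [exp_sub, hT', hT']
    simp only [hp]
    exact div_self (h0 _ _)
  refine ⟨n, fun u => ⟨fun t => T (u, t), by fun_prop, fun t => hT' _, fun t => ?_⟩⟩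
  have := key (u, t)
  simp only at this
  rw [hn] at this
  linear_combination this

theorem exists_wind {f : ℝ → ℂ} (hc : Continuous f) (h0 : ∀ t, f t ≠ 0)
    (hp : ∀ t, f (t + 1) = f t) : ∃ n : ℤ, Wind f n := by
  obtain ⟨n, hn⟩ := exists_wind_homotopy (H := fun _ t => f t) (by fun_prop) (fun _ => h0)
    (fun _ => hp)
  exact ⟨n, hn 0⟩

theorem Wind.homotopy {H : ℝ → ℝ → ℂ} (hc : Continuous fun p : ℝ × ℝ => H p.1 p.2)
    (h0 : ∀ u t, H u t ≠ 0) (hp : ∀ u t, H u (t + 1) = H u t) {u v : ℝ} {n : ℤ}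
    (h : Wind (H u) n) : Wind (H v) n := by
  obtain ⟨m, hm⟩ := exists_wind_homotopy hc h0 hp
  rw [h.unique (hm u)]
  exact hm v

/-- moving the base point along a path that avoids the curve -/
theorem Wind.move {b a : ℝ → ℂ} (hb : Continuous b) (hp : ∀ t, b (t + 1) = b t)
    (ha : Continuous a) {p q : ℝ} (hpq : p ≤ q) (h0 : ∀ u ∈ Icc p q, ∀ t, b t ≠ a u) {n : ℤ} :
    Wind (fun t => b t - a p) n ↔ Wind (fun t => b t - a q) n := by
  have hc : Continuous fun x : ℝ × ℝ => b x.2 - a (max p (min q x.1)) := by fun_prop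
  have h1 : ∀ u t, b t - a (max p (min q u)) ≠ 0 := fun u t => sub_ne_zero.2
    (h0 _ ⟨le_max_left _ _, max_le hpq (min_le_left _ _)⟩ t)
  have h2 : ∀ u t, b (t + 1) - a (max p (min q u)) = b t - a (max p (min q u)) := fun u t => by
    rw [hp]
  have ep : max p (min q p) = p := by rw [min_eq_right hpq, max_self]
  have eq : max p (min q q) = q := by rw [min_self, max_eq_right hpq]
  constructor
  · intro h
    have := Wind.homotopy (H := fun u t => b t - a (max p (min q u))) hc h1 h2 (u := p) (v := q)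
      (n := n) (by simpa only [ep] using h)
    simpa only [eq] using this
  · intro h
    have := Wind.homotopy (H := fun u t => b t - a (max p (min q u))) hc h1 h2 (u := q) (v := p)
      (n := n) (by simpa only [eq] using h)
    simpa only [ep] using this

theorem Wind.div {f g : ℝ → ℂ} {n m : ℤ} (h : Wind f n) (h' : Wind g m) :
    Wind (fun t => f t / g t) (n - m) := by
  obtain ⟨θ, hc, he, hp⟩ := h
  obtain ⟨θ', hc', he', hp'⟩ := h'
  refine ⟨fun t => θ t - θ' t, hc.sub hc', fun t => by rw [exp_sub, he, he'], fun t => ?_⟩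
  simp only [hp, hp']
  push_cast
  ring

theorem Wind.mul {f g : ℝ → ℂ} {n m : ℤ} (h : Wind f n) (h' : Wind g m) :
    Wind (fun t => f t * g t) (n + m) := by
  obtain ⟨θ, hc, he, hp⟩ := h
  obtain ⟨θ', hc', he', hp'⟩ := h'
  refine ⟨fun t => θ t + θ' t, hc.add hc', fun t => by rw [exp_add, he, he'], fun t => ?_⟩
  simp only [hp, hp']
  push_cast
  ring

theorem Wind.rev {f : ℝ → ℂ} {n : ℤ} (h : Wind f n) : Wind (fun t => f (-t)) (-n) := by
  obtain ⟨θ, hc, he, hp⟩ := h
  refine ⟨fun t => θ (-t), hc.comp continuous_neg, fun t => he _, fun t => ?_⟩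
  have := hp (-(t + 1))
  rw [show -(t + 1) + 1 = -t by ring] at this
  simp only [this]
  push_cast
  ring

/-- a closed curve in a slit plane has winding number `0` -/
theorem Wind.of_slit {f : ℝ → ℂ} (hc : Continuous f) (hp : ∀ t, f (t + 1) = f t) {ζ : ℂ}
    (hs : ∀ t, ζ * f t ∈ slitPlane) : Wind f 0 := by
  have hζ : ζ ≠ 0 := by
    rintro rfl
    have := hs 0
    rw [zero_mul] at this
    exact zero_notMem_slitPlane this
  refine ⟨fun t => log (ζ * f t) - log ζ, ?_, fun t => ?_, fun t => ?_⟩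
  · exact (Continuous.clog (by fun_prop) hs).sub continuous_const
  · rw [exp_sub, exp_log (slitPlane_ne_zero (hs t)), exp_log hζ]
    field_simp
  · simp [hp]

/-- the jump -/
theorem Wind.ne_zero_of_jump {g : ℝ → ℂ} (hc : Continuous g) (hp : ∀ t, g (t + 1) = g t)
    {α β : ℝ} (h1 : α ≤ β) (h2 : β ≤ α + 1) (hneg : ∀ t ∈ Icc α β, (g t).re < 0)
    (hslit : ∀ t ∈ Icc β (α + 1), g t ∈ slitPlane) (hα : (g α).im < 0) (hβ : 0 < (g β).im)
    {n : ℤ} (h : Wind g n) : n ≠ 0 := by
  rintro rfl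
  obtain ⟨θ, hθ, he, hq⟩ := h
  have e1 : θ (α + 1) - log (g (α + 1)) = θ β - log (g β) := by
    refine const_of_exp (isPreconnected_Icc (a := β) (b := α + 1))
      (f := fun t => θ t - log (g t)) ?_ ?_ ⟨h2, le_rfl⟩ ⟨le_rfl, h2⟩
    · exact hθ.continuousOn.sub (ContinuousOn.clog hc.continuousOn hslit)
    · intro t ht
      have := slitPlane_ne_zero (hslit t ht)
      rw [exp_sub, he, exp_log this, div_self this]
  have e2 : θ α - log (-g α) = θ β - log (-g β) := by
    have hs : ∀ t ∈ Icc α β, -g t ∈ slitPlane := fun t ht => by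
      rw [mem_slitPlane_iff]; left; rw [neg_re]; linarith [hneg t ht]
    refine const_of_exp (isPreconnected_Icc (a := α) (b := β))
      (f := fun t => θ t - log (-g t) - log (-1)) ?_ ?_ ⟨le_rfl, h1⟩ ⟨h1, le_rfl⟩ |> fun h => by
        simpa using h
    · exact (hθ.continuousOn.sub (ContinuousOn.clog hc.continuousOn.neg hs)).sub continuousOn_const
    · intro t ht
      have := slitPlane_ne_zero (hs t ht)
      have h' : g t ≠ 0 := by intro h; rw [h] at this; simp at this
      rw [exp_sub, exp_sub, he, exp_log this, exp_log (by norm_num)]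
      field_simp
  have e3 : θ (α + 1) = θ α := by rw [hq]; simp
  rw [e3, hp] at e1
  have e4 : log (g α) - log (-g α) = log (g β) - log (-g β) := by linear_combination e2 - e1
  have e5 := congrArg Complex.im e4
  rw [sub_im, sub_im, log_im, log_im, log_im, log_im,
    arg_neg_eq_arg_add_pi_of_im_neg hα, arg_neg_eq_arg_sub_pi_of_im_pos hβ] at e5
  linarith [Real.pi_pos]

end Pool.Agent.H491W
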